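import Pool.Agent.Lib.V3Q.Blue
import Pool.Agent.Lib.V3.B_FINAL

/-! Row FINAL2: the last contradiction with explicit constants. -/

namespace Pool.Agent.Lib.V3

open MeasureTheory ProbabilityTheory Filter Topology Finset SimpleGraph
open scoped NNReal ENNReal

namespace FINAL2

lemma half_Lo (p : Par) (d : Dat) {C Y : ℝ} (hH : p.Half2 d C Y) (y : V) (hy : 0 ≤ y 0)
    (hY : n1 y ≤ Y) {k : ℝ} (hk : C * (p.g d y + p.σ) ≤ k) :
    1 / 2 ≤ p.pr {τ | p.A d (y 0) τ y ≤ k} := by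
  refine (hH y hy hY).trans ?_
  rw [← p.pr_rf y]
  refine p.pr_mono fun τ hτ => ?_
  have h : p.TA (Up 0) (rf y τ) 0 y - d.ρ y ≤ C * (p.g d y + p.σ) := hτ
  rw [p.TA_rf_Up, sub_zero, sub_zero, sub_self, p.TA_comm] at h
  exact h.trans hk

lemma core (hF : St_FAST) (hS : St_SEP2) (p : Par) (d : Dat) (a₁ a k Y : ℝ) (g : p.Good d)
    (c1 : 0 ≤ a₁) (c0 : 0 ≤ a) (z : V) (K m n : ℕ) (z0 : 0 ≤ z 0) (hzK : n1 z ≤ K) (k0 : 0 ≤ k)
    (kn : k ≤ n) (hn : 1 ≤ n) (nz : z 0 + 1 ≤ n) (S : Finset V)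
    (hSv : ∀ v ∈ S, (n : ℤ) ≤ 2 * v 0 ∧ v 0 ≤ 2 * n ∧ p.g d v ≤ k)
    (hcard : p.cS * n ^ 2 ≤ S.card) (hH : p.Half2 d a₁ Y) (hSY : ∀ v ∈ S, n1 v ≤ Y)
    (hLow : p.LowB2 d a n)
    (hfast : a₁ * (k + p.σ) + p.b + a * (k + p.σ ^ 4) + p.lo * n1 z ≤ d.ρ z)
    (hm : (1 - p.q ^ K) ^ m ≤ 1 / 2) (hbig : 3 * (2 * K + 1) ^ 2 * (4 * m + 1 : ℝ) ≤ p.cS * n) :
    False := by
  have n1' : (1 : ℝ) ≤ n := by exact_mod_cast hn
  have l0 : 0 ≤ a * (k + p.σ ^ 4) := by have := p.σ_pos; positivity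
  obtain ⟨j, Y', E, hYS, hY, j0, j2, hYj, hdis, hK, hE⟩ := hS z K z0 hzK n S hn
    fun v hv => ⟨by have := (hSv v hv).1; omega, (hSv v hv).2.1⟩
  have hYm : 4 * m + 1 ≤ Y'.card := by
    have h1 := mul_le_mul_of_nonneg_right hbig (Nat.cast_nonneg (α := ℝ) n)
    have h3 : 3 * (2 * K + 1 : ℝ) ^ 2 * n * (4 * m + 1) ≤ 3 * (2 * K + 1) ^ 2 * n * Y'.card := by
      nlinarith
    have h4 := le_of_mul_le_mul_left h3 (by positivity)
    exact_mod_cast h4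
  have h8 := FINAL.some_fast hF p j Y' (fun y => {τ | p.A d j τ y ≤ a₁ * (k + p.σ)}) E K m
    (fun y => measurableSet_le (p.A_meas d j y) measurable_const)
    (fun y τ τ' h hτ => by
      have : p.A d j τ y ≤ a₁ * (k + p.σ) := hτ
      show p.A d j τ' y ≤ a₁ * (k + p.σ)
      rwa [← p.A_congr d h])
    (fun y hy => by
      have := half_Lo p d hH y (by rw [hYj y hy]; exact j0) (hSY y (hYS hy)) (k := a₁ * (k + p.σ))
        (mul_le_mul_of_nonneg_left (by linarith [(hSv y (hYS hy)).2.2]) c1)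
      rwa [hYj y hy] at this)
    hYm hdis hK (fun y hy e he => notMem_Lo_of_Up ((hE y hy).1 e he).1) hm
  have h9 := hLow n k S (j + 1 + z 0) hn le_rfl k0 kn hSv hcard (by omega) (by omega)
  have h10 : p.pr {τ | ∃ y ∈ Y', τ ∈ {τ | p.A d j τ y ≤ a₁ * (k + p.σ)} ∧ ∀ e ∈ E y, τ e ≤ p.lo} ≤
      p.pr (p.Low d n (j + 1 + z 0) (a * (k + p.σ ^ 4))) := p.pr_mono fun τ ⟨y, hy, hA, hτ⟩ => by
    obtain ⟨hin, q, hq, hqE⟩ := hE y hy
    have a1 : p.TA (Lo j) τ 0 y - d.ρ y ≤ a₁ * (k + p.σ) := hA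
    have a2 := p.TA_anti (Lo_mono (show j ≤ j + 1 + z 0 by omega)) τ 0 y
    have a3 := p.TA_le (Lo (j + 1 + z 0)) τ y (y + e0)
    rw [add_sub_cancel_left, n1_e0, mul_one] at a3
    have a4 := p.TA_le_LW τ q fun e he => (hin e (hqE e he)).2
    have a5 := p.LW_le_mul (τ := τ) (l := q.edges) (c := p.lo) fun e he =>
      (p.w_mono (hτ e (hqE e he))).trans_eq p.w_lo
    rw [Walk.length_edges, hq] at a5
    have a6 := p.TA_tri (Lo (j + 1 + z 0)) τ 0 y (y + e0)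
    have a7 := p.TA_tri (Lo (j + 1 + z 0)) τ 0 (y + e0) (y + e0 + z)
    have a8 : p.A d (j + 1 + z 0) τ (y + e0 + z) ≤ -(a * (k + p.σ ^ 4)) := by
      unfold Par.A
      rw [d.ρ_add, d.ρ_add, d.ρ_e0]
      linarith [g.ρ0_nonneg]
    have a9 : 0 ≤ d.ε / 36 * d.eta (y + e0 + z) / n := by
      have := g.ε_pos
      have := d.eta_nonneg (y + e0 + z)
      positivity
    exact ⟨y + e0 + z, by simp [hYj y hy], by linarith, by linarith⟩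
  linarith

/-- the number of independent trials -/
lemma trials {x : ℝ} (h0 : 0 < x) (h1 : x ≤ 1) :
    ∃ m : ℕ, (1 - x) ^ m ≤ 1 / 2 ∧ (4 * m + 1 : ℝ) ≤ 9 * x⁻¹ := by
  have hx : 1 ≤ x⁻¹ := (one_le_inv₀ h0).2 h1
  refine ⟨⌈x⁻¹⌉₊, ?_, by linarith [Nat.ceil_lt_add_one (zero_le_one.trans hx)]⟩
  have h2 : (1 - x) ^ ⌈x⁻¹⌉₊ ≤ Real.exp (-x) ^ ⌈x⁻¹⌉₊ :=
    pow_le_pow_left₀ (by linarith) (by linarith [Real.add_one_le_exp (-x)]) _
  rw [← Real.exp_nat_mul] at h2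
  have h3 : (⌈x⁻¹⌉₊ : ℝ) * -x ≤ -1 := by
    have := mul_le_mul_of_nonneg_right (Nat.le_ceil x⁻¹) h0.le
    rw [inv_mul_cancel₀ h0.ne'] at this
    linarith
  refine h2.trans ((Real.exp_le_exp.2 h3).trans ?_)
  rw [Real.exp_neg, one_div]
  exact inv_anti₀ two_pos (by linarith [Real.add_one_le_exp 1])

/-- the size condition -/
lemma size {K L σ c1 A u : ℝ} (hK : 0 ≤ K) (hL : 0 ≤ L) (hσ : 1 ≤ σ) (hc : 0 < c1)
    (hA : K ≤ A * σ ^ 4) (hu : u ≤ 9 * Real.exp (K * L)) {c n : ℝ}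
    (h : A * (4 + L) + 1 + 10800 / c1 ^ 2 ≤ c) (hn : Real.exp (c * σ ^ 4) ≤ n) :
    3 * (2 * K + 1) ^ 2 * u ≤ c1 ^ 2 / (400 * σ ^ 2) * n := by
  have s1 : 1 ≤ σ ^ 2 := one_le_pow₀ hσ
  have s4 : 1 ≤ σ ^ 4 := one_le_pow₀ hσ
  have s2 : σ ^ 2 ≤ Real.exp (σ ^ 4) := by
    have : σ ^ 2 ≤ σ ^ 4 := pow_le_pow_right₀ hσ (by norm_num)
    linarith [Real.add_one_le_exp (σ ^ 4)]
  have e1 : (2 * K + 1) ^ 2 ≤ Real.exp (4 * K) := by
    have := pow_le_pow_left₀ (by linarith) (Real.add_one_le_exp (2 * K)) 2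
    rwa [← Real.exp_nat_mul, show ((2 : ℕ) : ℝ) * (2 * K) = 4 * K by push_cast; ring] at this
  have c0 : 0 < 10800 / c1 ^ 2 := by positivity
  have e2 : 10800 / c1 ^ 2 ≤ Real.exp (10800 / c1 ^ 2 * σ ^ 4) := by
    have := le_mul_of_one_le_right c0.le s4
    linarith [Real.add_one_le_exp (10800 / c1 ^ 2 * σ ^ 4)]
  have e3 : 4 * K + K * L + σ ^ 4 + 10800 / c1 ^ 2 * σ ^ 4 ≤ c * σ ^ 4 := by
    have h1 := mul_le_mul_of_nonneg_right hA (show 0 ≤ 4 + L by linarith)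
    have h2 := mul_le_mul_of_nonneg_right h (zero_le_one.trans s4)
    linarith
  have e4 := (Real.exp_le_exp.2 e3).trans hn
  rw [Real.exp_add, Real.exp_add, Real.exp_add] at e4
  have e5 : (2 * K + 1) ^ 2 * Real.exp (K * L) * σ ^ 2 * (10800 / c1 ^ 2) ≤ n :=
    le_trans (by gcongr) e4
  have e6 : 3 * (2 * K + 1) ^ 2 * (9 * Real.exp (K * L)) = c1 ^ 2 / (400 * σ ^ 2) *
      ((2 * K + 1) ^ 2 * Real.exp (K * L) * σ ^ 2 * (10800 / c1 ^ 2)) := by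
    field_simp
    ring
  calc _ ≤ 3 * (2 * K + 1) ^ 2 * (9 * Real.exp (K * L)) := by gcongr
    _ ≤ _ := by rw [e6]; gcongr

end FINAL2

open FINAL2 in
theorem bFINAL2 (hF : St_FAST) (hS : St_SEP2) : St_FINAL2 := by
  intro p d a₁ a M g hL c1 c0
  have hδ : 0 < ((p.r + p.hi) / 2 - p.lo) / 2 := by linarith [p.lo_lt]
  set δ := ((p.r + p.hi) / 2 - p.lo) / 2 with hδ'
  obtain ⟨z, hz, hzg⟩ := g.G3 δ hδ 1
  have z1 : (1 : ℝ) ≤ z 0 := by exact_mod_cast hz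
  have z2 : (z 0 : ℝ) ≤ n1 z := by
    unfold n1
    linarith [le_abs_self (z 0 : ℝ), abs_nonneg (z 1 : ℝ), abs_nonneg (z 2 : ℝ)]
  have hgain : p.lo * n1 z + δ ≤ d.ρ z := by
    have h3 := hL z
    have h4 := mul_le_mul_of_nonneg_left z2 hδ.le
    have h5 := mul_le_mul_of_nonneg_left (z1.trans z2) hδ.le
    have h6 : (p.r + p.hi) / 2 * n1 z = p.lo * n1 z + 2 * (δ * n1 z) := by rw [hδ']; ring
    unfold Par.g at hzg
    linarith
  obtain ⟨K₁, hK₁⟩ : ∃ K₁ : ℕ, n1 z = K₁ := ⟨_, n1_nat z⟩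
  have hb := p.b_pos
  have hr := p.r_pos
  have hc := p.c1_pos
  have L0 : 0 ≤ -Real.log p.q := neg_nonneg.2 (Real.log_nonpos p.q_pos'.le p.q_le_one)
  set L := -Real.log p.q with hLq
  have A0 : 0 ≤ (a₁ + a) * (2 * M ^ 2 + 1) + p.b := by positivity
  set A := (a₁ + a) * (2 * M ^ 2 + 1) + p.b with hA
  have B0 : 0 ≤ (A / δ + 1) * K₁ := by positivity
  set B := (A / δ + 1) * K₁ with hB
  refine ⟨2 * M ^ 2 + (B * (4 + L) + 1 + 10800 / p.c1 ^ 2), 2 + 2 / p.r * (2 * p.b + 1),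
    by positivity, by positivity, fun σ h n hH hLow ⟨_, S, hSv, hcard⟩ => ?_⟩
  by_contra hn
  rw [not_le] at hn
  set c := 2 * M ^ 2 + (B * (4 + L) + 1 + 10800 / p.c1 ^ 2) with hcc
  have s4 : 1 ≤ σ ^ 4 := one_le_pow₀ h
  have s1 : σ ≤ σ ^ 4 := le_self_pow₀ h (by norm_num)
  have c2 : 0 < 10800 / p.c1 ^ 2 := by positivity
  have c3 : B ≤ B * (4 + L) := le_mul_of_one_le_right B0 (by linarith)
  have hcn : c * σ ^ 4 + 1 ≤ n := (Real.add_one_le_exp _).trans hn.le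
  have M0 : 0 ≤ 2 * M ^ 2 := by positivity
  have kn : 2 * M ^ 2 * σ ^ 4 ≤ n := by
    have := mul_le_mul_of_nonneg_right (show 2 * M ^ 2 ≤ c by linarith) (zero_le_one.trans s4)
    linarith
  have k0 : 0 ≤ 2 * M ^ 2 * σ ^ 4 := by positivity
  have n1' : (1 : ℝ) ≤ n := by
    have : 0 ≤ c * σ ^ 4 := mul_nonneg (by linarith) (by linarith)
    linarith
  have t0 : 0 ≤ A * σ ^ 4 / δ := by positivity
  have t1 := Nat.le_ceil (A * σ ^ 4 / δ)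
  have t2 := (Nat.ceil_lt_add_one t0).le
  set t := ⌈A * σ ^ 4 / δ⌉₊ with ht
  have hK : ((t * K₁ : ℕ) : ℝ) ≤ B * σ ^ 4 := by
    have h1 : (t : ℝ) ≤ (A / δ + 1) * σ ^ 4 := by
      rw [add_mul, div_mul_eq_mul_div]; linarith
    have h2 := mul_le_mul_of_nonneg_right h1 (Nat.cast_nonneg (α := ℝ) K₁)
    push_cast
    rw [hB]
    linarith
  have hzt : n1 (t • z) = ((t * K₁ : ℕ) : ℝ) := by rw [n1_nsmul, hK₁]; push_cast; rfl
  have hgk : ∀ v ∈ S, p.g d v ≤ 2 * M ^ 2 * σ ^ 4 := fun v hv => by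
    refine (hSv v hv).2.2.trans ?_
    have h1 : (v 0 : ℝ) ≤ 2 * n := by exact_mod_cast (hSv v hv).2.1
    rw [div_pow, Real.sq_sqrt (by linarith), div_mul_eq_mul_div, div_le_iff₀ (by linarith)]
    have := mul_le_mul_of_nonneg_left h1 (sq_nonneg (M * σ ^ 2))
    linarith
  obtain ⟨m, hm, hm2⟩ := trials (pow_pos p.q_pos' (t * K₁)) (pow_le_one₀ p.q_pos'.le p.q_le_one)
  have hq : (p.q ^ (t * K₁))⁻¹ = Real.exp (((t * K₁ : ℕ) : ℝ) * L) := by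
    rw [hLq, mul_neg, Real.exp_neg, Real.exp_nat_mul, Real.exp_log p.q_pos']
  rw [hq] at hm2
  have zt0 : 0 ≤ (t • z) 0 := by
    have : 0 ≤ z 0 := le_trans (by norm_num) hz
    simp only [Pi.smul_apply, nsmul_eq_mul]
    positivity
  refine core hF hS (p.sig σ h) d a₁ a (2 * M ^ 2 * σ ^ 4) _
    ⟨g.1, g.2, g.3, g.4, g.5, g.6, g.7, g.8, g.9, g.10, g.11⟩ c1 c0 (t • z) (t * K₁) m n zt0
    hzt.le k0 kn (by exact_mod_cast n1') ?_ S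
    (fun v hv => ⟨(hSv v hv).1, (hSv v hv).2.1, hgk v hv⟩) hcard hH (fun v hv => ?_) hLow ?_ hm
    (size (Nat.cast_nonneg _) L0 h hc hK hm2 (show _ ≤ c by linarith) hn.le)
  · have h1 : (((t • z) 0 : ℤ) : ℝ) ≤ n1 (t • z) := by
      unfold n1
      linarith [le_abs_self (((t • z) 0 : ℤ) : ℝ), abs_nonneg (((t • z) 1 : ℤ) : ℝ),
        abs_nonneg (((t • z) 2 : ℤ) : ℝ)]
    have h2 := mul_le_mul_of_nonneg_right (show B ≤ c by linarith) (zero_le_one.trans s4)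
    have : (((t • z) 0 : ℤ) : ℝ) + 1 ≤ n := by linarith
    exact_mod_cast this
  · have v0 : 0 ≤ v 0 := by have := (hSv v hv).1; omega
    have v0' : (0 : ℝ) ≤ v 0 := by exact_mod_cast v0
    have h1 : (v 0 : ℝ) ≤ 2 * n := by exact_mod_cast (hSv v hv).2.1
    have h2 := g.g_ge v v0
    have h3 := hgk v hv
    have h4 := mul_le_mul_of_nonneg_left h1 hb.le
    have h5 : |(v 1 : ℝ)| + |(v 2 : ℝ)| ≤ 2 / p.r * (2 * p.b + 1) * n := by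
      rw [mul_assoc, div_mul_eq_mul_div, le_div_iff₀ hr]
      linarith
    unfold n1
    rw [abs_of_nonneg v0']
    linarith
  · show a₁ * (2 * M ^ 2 * σ ^ 4 + σ) + p.b + a * (2 * M ^ 2 * σ ^ 4 + σ ^ 4) +
      p.lo * n1 (t • z) ≤ d.ρ (t • z)
    rw [n1_nsmul, d.ρ_nsmul]
    rw [div_le_iff₀ hδ] at t1
    have h1 := mul_le_mul_of_nonneg_left hgain (Nat.cast_nonneg (α := ℝ) t)
    have h2 := mul_le_mul_of_nonneg_left s1 c1
    have h3 := le_mul_of_one_le_right hb.le s4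
    rw [hA] at t1
    linarith

end Pool.Agent.Lib.V3
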