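import Pool.Agent.Lib.V3.Blue

/-! Quantitative form: definitions and statements of the blocks. -/

namespace Pool.Agent.Lib.V3

open MeasureTheory ProbabilityTheory Filter Topology Pool.Agent.Lib.MP_eba68f_pr
open scoped NNReal ENNReal

namespace Par

variable (p : Par)

/-- the same data with another bound for the standard deviation -/
def sig (σ : ℝ) (h : 1 ≤ σ) : Par := { p with σ := σ, one_le := h }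

/-- the variance bound up to distance `X` -/
def VarM (X : ℝ) : Prop := ∀ v, n1 v ≤ X → p.Vr v ≤ p.σ ^ 2

def Half2 (d : Dat) (a Y : ℝ) : Prop :=
  ∀ v : V, 0 ≤ v 0 → n1 v ≤ Y →
    1 / 2 ≤ p.pr {τ | p.TA (Up 0) τ 0 v - d.ρ v ≤ a * (p.g d v + p.σ)}

def LowB2 (d : Dat) (a : ℝ) (N : ℕ) : Prop :=
  ∀ (n : ℕ) (k : ℝ) (S : Finset V) (j : ℤ), 1 ≤ n → n ≤ N → 0 ≤ k → k ≤ n →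
    (∀ v ∈ S, (n : ℤ) ≤ 2 * v 0 ∧ v 0 ≤ 2 * n ∧ p.g d v ≤ k) → p.cS * n ^ 2 ≤ S.card →
    0 ≤ j → j ≤ 3 * n → p.pr (p.Low d n j (a * (k + p.σ ^ 4))) ≤ 1 / 100

end Par

def St_KES : Prop := ∀ p : Par, ∃ C : ℝ, 0 ≤ C ∧ ∀ v : V, p.Vr v ≤ C * n1 v

def St_HALVE : Prop :=
  ∀ (p : Par) (d : Dat), p.Good d → ∃ C : ℝ, 0 ≤ C ∧ ∀ (n : ℕ) (x : V), 2 ≤ n → x 0 = n →
    p.g d x ≤ n → ∃ (n' : ℕ) (x' : V), n ≤ 3 * n' ∧ 3 * n' ≤ 2 * n ∧ x' 0 = n' ∧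
      p.g d x' * n ≤ (p.g d x + C * n / √(√n)) * n'

def St_CHAIN2 : Prop :=
  ∀ (Q : ℕ → ℝ → Prop) (f δ : ℕ → ℝ) (e β₀ : ℝ) (n₁ N : ℕ), 1 ≤ n₁ → 0 ≤ e → (∀ n, 0 ≤ f n) →
    (∀ n, 0 ≤ δ n) → (∀ (n : ℕ) (β β' : ℝ), 0 ≤ β → β ≤ β' → Q n β → Q n β') →
    (∀ (n : ℕ) (β : ℝ), n₁ ≤ n → n ≤ N → 0 ≤ β → β ≤ β₀ → Q n β →
      ∃ n' : ℕ, n ≤ 3 * n' ∧ 3 * n' ≤ 2 * n ∧ Q n' (β + δ n)) →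
    (∀ n n' : ℕ, 1 ≤ n' → 3 * n' ≤ 2 * n → f n + δ n ≤ f n') → (∀ n, n₁ ≤ n → e + f n ≤ β₀) →
    ∀ n : ℕ, n₁ ≤ n → n ≤ N → Q n (e + f n) → ∃ m : ℕ, n₁ ≤ 3 * m ∧ m < n₁ ∧ Q m (e + f m)

def St_START2 : Prop :=
  ∀ (p : Par) (d : Dat), p.Good d → ∃ (C : ℝ) (w₀ : ℕ), 0 ≤ C ∧ ∀ (σ : ℝ) (h : 1 ≤ σ) (w : ℕ),
    w₀ ≤ w → ∃ n : ℕ, w ^ 4 ≤ n ∧ n ≤ 3 * w ^ 4 ∧ (p.sig σ h).PP d n (C / √w)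

def St_HALF2 : Prop :=
  ∀ (p : Par) (d : Dat), p.Good d → ∃ a Γ : ℝ, 0 ≤ a ∧ 0 ≤ Γ ∧ ∀ (σ : ℝ) (h : 1 ≤ σ) (Y : ℝ),
    (p.sig σ h).VarM (Γ * Y) → (p.sig σ h).Half2 d a Y

def St_LOW2 : Prop :=
  ∀ (p : Par) (d : Dat) (a₁ : ℝ), p.Good d → 0 ≤ a₁ → ∃ a Γ : ℝ, 0 ≤ a ∧ 0 ≤ Γ ∧
    ∀ (σ : ℝ) (h : 1 ≤ σ) (N : ℕ), (p.sig σ h).VarM (Γ * N) → (p.sig σ h).Half2 d a₁ (Γ * N) →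
      (p.sig σ h).LowB2 d a N

def St_CORE2 : Prop :=
  ∀ (p : Par) (d : Dat) (X : ℝ), p.Good d → p.VarM X → p.Rare →
    ∀ (n : ℕ) (x : V) (lam t s : ℝ), 24 ≤ n → x 0 = n → 0 ≤ lam →
      p.g d x + 10 * p.σ + p.b + lam < n →
      (∀ j : ℕ, j < n → p.pr (p.Low d n j lam) ≤ 1 / 100) → 1 ≤ t →
      36 * (p.g d x + 10 * p.σ + p.b + 2 * lam) ≤ d.ε * t → 300 * p.σ ^ 2 * √t ≤ p.c1 * s →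
      (1 + 2 * p.R) * n + 2 * √(n * t) ≤ X →
      ∃ S : Finset V, (∀ v ∈ S, (n : ℤ) ≤ 3 * v 0 ∧ 3 * v 0 ≤ 2 * n ∧
        p.g d v * (n - 1) ≤ v 0 * (p.g d x + 10 * p.σ + p.b + 2 * s)) ∧ p.cS * n ^ 2 ≤ S.card

def St_STEP2 : Prop :=
  ∀ (p : Par) (d : Dat) (a : ℝ), p.Good d → p.Rare → 0 ≤ a →
    ∃ B β₀ c Γ : ℝ, 0 ≤ B ∧ 0 < β₀ ∧ 0 ≤ c ∧ 0 ≤ Γ ∧ ∀ (σ : ℝ) (h : 1 ≤ σ) (N : ℕ),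
      (p.sig σ h).VarM (Γ * N) → (p.sig σ h).LowB2 d a N →
      ∀ (n : ℕ) (β : ℝ), c * σ ^ 4 ≤ n → n ≤ N → 0 ≤ β → β ≤ β₀ → (p.sig σ h).PP d n β →
        ∃ n' : ℕ, n ≤ 3 * n' ∧ 3 * n' ≤ 2 * n ∧ (p.sig σ h).PP d n' (β + B * σ ^ 2 / √n)

/-- many sites of one plane with disjoint fast routes above them, explicit constants -/
def St_SEP2 : Prop :=
  ∀ (z : V) (K : ℕ), 0 ≤ z 0 → n1 z ≤ K → ∀ (n : ℕ) (S : Finset V), 1 ≤ n →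
    (∀ v ∈ S, 0 ≤ v 0 ∧ v 0 ≤ 2 * n) →
    ∃ (j : ℤ) (Y : Finset V) (E : V → Finset (Sym2 V)), Y ⊆ S ∧
      (S.card : ℝ) ≤ 3 * (2 * K + 1) ^ 2 * n * Y.card ∧
      0 ≤ j ∧ j ≤ 2 * n ∧ (∀ y ∈ Y, y 0 = j) ∧
      (∀ y ∈ Y, ∀ y' ∈ Y, y ≠ y' → Disjoint (E y) (E y')) ∧ (∀ y ∈ Y, (E y).card ≤ K) ∧
      ∀ y ∈ Y, (∀ e ∈ E y, e ∈ Up (j + 1) ∧ e ∈ Lo (j + 1 + z 0)) ∧
        ∃ q : G.Walk (y + e0) (y + e0 + z), (q.length : ℝ) = n1 z ∧ ∀ e ∈ q.edges, e ∈ E y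

def St_FINAL2 : Prop :=
  ∀ (p : Par) (d : Dat) (a₁ a M : ℝ), p.Good d → (∀ v : V, (p.r + p.hi) / 2 * n1 v ≤ p.h v) →
    0 ≤ a₁ → 0 ≤ a → ∃ c Γ : ℝ, 0 ≤ c ∧ 0 ≤ Γ ∧ ∀ (σ : ℝ) (h : 1 ≤ σ) (n : ℕ),
      (p.sig σ h).Half2 d a₁ (Γ * n) → (p.sig σ h).LowB2 d a n →
      (p.sig σ h).PP d n (M * σ ^ 2 / √n) → (n : ℝ) ≤ Real.exp (c * σ ^ 4)

def St_MAIN2 : Prop :=
  ∀ p : Par, p.Rare → ∃ c Γ : ℝ, 0 ≤ c ∧ 0 ≤ Γ ∧ ∀ (σ : ℝ) (h : 1 ≤ σ) (w : ℕ),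
    (p.sig σ h).VarM (Γ * w ^ 4) → (w : ℝ) ≤ Real.exp (c * σ ^ 4)

def St_RATE : Prop :=
  ∀ p : Par, p.Rare → ∃ c : ℝ, 0 < c ∧ ∀ᶠ N : ℕ in atTop, ∃ v : V, n1 v ≤ N ∧
    c * √(Real.log N) ≤ p.Vr v

def St_FIN2 : Prop :=
  ∀ r b : ℝ≥0, 0 < r → ∃ p₀ : ℝ≥0∞, 0 < p₀ ∧ ∀ (F : Measure ℝ≥0) [IsProbabilityMeasure F],
    F (Set.Icc r b) = 1 → (∀ a, r < a → 0 < F (Set.Iic a)) → F {r} < p₀ →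
    ∃ c : ℝ, 0 < c ∧ ∀ᶠ N : ℕ in atTop, ∃ v : Fin 3 → ℤ, (∀ i, |v i| ≤ N) ∧
      ENNReal.ofReal (c * √(Real.log N)) ≤ evariance (fun τ => passage τ 0 v)
        (Measure.infinitePi fun _ : (lattice 3).edgeSet => F)

end Pool.Agent.Lib.V3
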