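import Pool.Agent.Lib.V3.Prob
import Pool.Agent.Lib.V3Q.Blue

/-! Blocks HALVE and CHAIN2. -/

namespace Pool.Agent.Lib.V3

open MeasureTheory ProbabilityTheory Finset SimpleGraph
open scoped NNReal

namespace HALVE

theorem ivt {u v : V} (q : G.Walk u v) (j : ℤ) (h1 : u 0 ≤ j) (h2 : j ≤ v 0) :
    ∃ y ∈ q.support, y 0 = j := by
  induction q with
  | nil => exact ⟨_, Walk.start_mem_support _, le_antisymm h1 h2⟩
  | @cons a b c h q ih =>
    by_cases ha : a 0 = j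
    · exact ⟨a, Walk.start_mem_support _, ha⟩
    · have hb : b 0 ≤ j := by
        rcases adj_iff.1 h with h | h | h | h | h | h <;> omega
      obtain ⟨y, hy, hj⟩ := ih hb h2
      exact ⟨y, by simp [hy], hj⟩

theorem split (p : Par) (τ : Cfg) (x : V) (j : ℤ) (h1 : 0 ≤ j) (h2 : j ≤ x 0) :
    ∃ y : V, y 0 = j ∧ n1 y ≤ p.b / p.r * n1 x ∧ p.T τ 0 y + p.T τ y x ≤ p.T τ 0 x := by
  classical
  obtain ⟨q, -, hq⟩ := p.exists_geo τ 0 x
  obtain ⟨y, hy, hj⟩ := ivt q j (by simpa using h1) h2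
  refine ⟨y, hj, ?_, ?_⟩
  · have a1 := n1_le_length (q.takeUntil y hy)
    have a2 : ((q.takeUntil y hy).length : ℝ) ≤ q.length := by
      exact_mod_cast q.length_takeUntil_le_length hy
    have a3 := p.geo_length hq
    rw [sub_zero] at a1 a3
    linarith
  · have e := congrArg Walk.edges (q.take_spec hy)
    rw [Walk.edges_append] at e
    rw [← hq, ← e, Par.LW_append]
    exact add_le_add (p.T_le_LW τ _) (p.T_le_LW τ _)

theorem round (a : ℤ) (m : ℕ) (hm : 0 < m) :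
    |(a : ℝ) - ((m * (a / m) : ℤ) : ℝ)| ≤ m ∧ (m : ℝ) * |((a / m : ℤ) : ℝ)| ≤ |(a : ℝ)| + m := by
  have h0 : (0 : ℤ) < m := by exact_mod_cast hm
  have h1 := Int.emod_nonneg a h0.ne'
  have h2 := Int.emod_lt_of_pos a h0
  have h3 := Int.emod_add_mul_ediv a m
  have k : |(a : ℝ) - ((m * (a / m) : ℤ) : ℝ)| ≤ m := by
    have : |a - m * (a / m)| ≤ m := abs_le.2 ⟨by omega, by omega⟩
    exact_mod_cast this
  refine ⟨k, ?_⟩
  have e : (m : ℝ) * |((a / m : ℤ) : ℝ)| = |((m * (a / m) : ℤ) : ℝ)| := by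
    rw [Int.cast_mul, abs_mul, Int.cast_natCast, Nat.abs_cast]
  rw [e]
  have := abs_sub_abs_le_abs_sub (((m * (a / m) : ℤ) : ℝ)) (a : ℝ)
  rw [abs_sub_comm] at this
  linarith

end HALVE

open HALVE in
theorem bHALVE (hK : St_KES) : St_HALVE := by
  classical
  intro p d g
  obtain ⟨C, hC, hV⟩ := hK p
  have hr := p.r_pos
  have hb := p.b_pos
  have h1 := p.one_le_ratio
  obtain ⟨D, hD⟩ : ∃ D, D = p.b / p.r * (1 + 2 / p.r * (p.b + 1)) := ⟨_, rfl⟩
  have hE : 0 ≤ 2 / p.r * (p.b + 1) := by positivity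
  have hD1 : 1 ≤ D := by rw [hD]; nlinarith
  obtain ⟨K, hK'⟩ : ∃ K, K = C * (5 * D + 5) := ⟨_, rfl⟩
  have hK0 : 0 ≤ K := by rw [hK']; positivity
  obtain ⟨l, hl⟩ : ∃ l, l = (2 * (2 * D + 3) ^ 2 + 1) * K + 1 := ⟨_, rfl⟩
  have hl1 : 1 ≤ l := by rw [hl]; have : 0 ≤ (2 * (2 * D + 3) ^ 2 + 1) * K := by positivity
                         linarith
  refine ⟨3 * l + 8 * p.b, by positivity, fun n x hn hx hg => ?_⟩
  have hn1 : (1 : ℝ) ≤ n := by exact_mod_cast (by omega : 1 ≤ n)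
  obtain ⟨u, hu⟩ : ∃ u, u = √(√(n : ℝ)) := ⟨_, rfl⟩
  have hu1 : 1 ≤ u := by rw [hu]; exact Real.one_le_sqrt.2 (Real.one_le_sqrt.2 hn1)
  have hu4 : (n : ℝ) = u ^ 4 := by
    rw [show u ^ 4 = (u ^ 2) ^ 2 by ring, hu, Real.sq_sqrt (Real.sqrt_nonneg _),
      Real.sq_sqrt (by positivity)]
  have hu0 : 0 < u := by linarith
  have hu3 : 1 ≤ u ^ 3 := one_le_pow₀ hu1
  rw [← hu]
  have hx1 : n1 x ≤ (1 + 2 / p.r * (p.b + 1)) * n := by
    have a := g.g_ge x (by omega)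
    have e0 : ((x 0 : ℤ) : ℝ) = n := by rw [hx]; simp
    have a2 : |(x 1 : ℝ)| + |(x 2 : ℝ)| ≤ 2 / p.r * (p.b + 1) * n := by
      rw [show 2 / p.r * (p.b + 1) * n = (p.b + 1) * n / (p.r / 2) by field_simp,
        le_div_iff₀ (by positivity)]
      rw [e0] at a
      linarith
    unfold n1
    rw [e0, abs_of_nonneg (by positivity)]
    linarith
  have hx2 : p.b / p.r * n1 x ≤ D * n := by
    rw [hD, mul_assoc]; exact mul_le_mul_of_nonneg_left hx1 (by positivity)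
  have hx3 : n1 x ≤ D * n := by nlinarith [n1_nonneg x]
  obtain ⟨m, hm1, hm2⟩ : ∃ m : ℕ, u ^ 3 ≤ m ∧ (m : ℝ) ≤ 2 * u ^ 3 :=
    ⟨⌈u ^ 3⌉₊, Nat.le_ceil _, by linarith [Nat.ceil_lt_add_one (by positivity : 0 ≤ u ^ 3)]⟩
  have hm0 : 0 < m := by exact_mod_cast (by linarith : (0 : ℝ) < m)
  obtain ⟨A, hA1, hA2⟩ : ∃ A : ℕ, (A : ℝ) ≤ (D + 1) * u ∧ ∀ a : ℤ, |(a : ℝ)| ≤ (D + 1) * u →
      a ∈ Finset.Icc (-(A : ℤ)) A := by
    refine ⟨⌊(D + 1) * u⌋₊, Nat.floor_le (by positivity), fun a ha => ?_⟩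
    rw [Finset.mem_Icc, ← abs_le, Int.natCast_floor_eq_floor (by positivity), Int.le_floor]
    exact_mod_cast ha
  obtain ⟨j, hj⟩ : ∃ j : ℕ, j = n / 2 := ⟨_, rfl⟩
  let Y : ℤ × ℤ → V := fun a => pt j (m * a.1) (m * a.2)
  let I := Finset.Icc (-(A : ℤ)) A ×ˢ Finset.Icc (-(A : ℤ)) A
  have hY : ∀ a ∈ I, n1 (Y a) ≤ (4 * D + 5) * n := by
    intro a ha
    have k : ∀ c : ℤ, c ∈ Finset.Icc (-(A : ℤ)) A → |((m * c : ℤ) : ℝ)| ≤ 2 * (D + 1) * n := by
      intro c hc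
      rw [Finset.mem_Icc, ← abs_le] at hc
      have hc' : |(c : ℝ)| ≤ A := by exact_mod_cast hc
      rw [Int.cast_mul, abs_mul, Int.cast_natCast, Nat.abs_cast, hu4]
      calc (m : ℝ) * |(c : ℝ)| ≤ (2 * u ^ 3) * ((D + 1) * u) :=
            mul_le_mul hm2 (hc'.trans hA1) (abs_nonneg _) (by positivity)
        _ = 2 * (D + 1) * u ^ 4 := by ring
    have k1 := k _ (Finset.mem_product.1 ha).1
    have k2 := k _ (Finset.mem_product.1 ha).2
    have k3 : (j : ℝ) ≤ n := by exact_mod_cast (by omega : j ≤ n)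
    simp only [n1, Y, pt_zero, pt_one, pt_two, Int.cast_natCast, Nat.abs_cast]
    linarith
  have hc : ∀ a c : V, n1 (c - a) ≤ (5 * D + 5) * n →
      p.pr {τ | l * u ^ 3 ≤ |p.T τ a c - p.h (c - a)|} ≤ K / (l * u ^ 2) := by
    intro a c h
    refine (p.cheb a c (by positivity)).trans ?_
    have k : p.Vr (c - a) ≤ K * u ^ 4 := by
      rw [hK', ← hu4, mul_assoc]
      exact (hV _).trans (mul_le_mul_of_nonneg_left h hC)
    rw [div_le_div_iff₀ (by positivity) (by positivity)]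
    have k2 : p.Vr (c - a) * (l * u ^ 2) ≤ K * u ^ 4 * (l * u ^ 2) :=
      mul_le_mul_of_nonneg_right k (by positivity)
    have k3 : K * u ^ 4 * (l * u ^ 2) * 1 ≤ K * u ^ 4 * (l * u ^ 2) * l :=
      mul_le_mul_of_nonneg_left hl1 (by positivity)
    nlinarith
  obtain ⟨τ, hτ⟩ : ∃ τ, τ ∉ {τ | l * u ^ 3 ≤ |p.T τ 0 x - p.h (x - 0)|} ∪
      ⋃ a ∈ I, ({τ | l * u ^ 3 ≤ |p.T τ 0 (Y a) - p.h (Y a - 0)|} ∪
        {τ | l * u ^ 3 ≤ |p.T τ (Y a) x - p.h (x - Y a)|}) := by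
    by_contra hne
    push Not at hne
    have k := p.pr_mono (A := Set.univ) fun τ _ => hne τ
    rw [p.pr_univ] at k
    have k1 := hc 0 x (by rw [sub_zero]; nlinarith)
    have k2 : ∑ a ∈ I, p.pr ({τ | l * u ^ 3 ≤ |p.T τ 0 (Y a) - p.h (Y a - 0)|} ∪
        {τ | l * u ^ 3 ≤ |p.T τ (Y a) x - p.h (x - Y a)|}) ≤ I.card • (2 * (K / (l * u ^ 2))) := by
      refine Finset.sum_le_card_nsmul _ _ _ fun a ha => (p.pr_union_le _ _).trans ?_
      have b1 := hc 0 (Y a) (by rw [sub_zero]; nlinarith [hY a ha])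
      have b2 := hc (Y a) x (by
        have := n1_add_le x (-Y a)
        rw [n1_neg, ← sub_eq_add_neg] at this
        linarith [hY a ha])
      linarith
    have k3 : (I.card : ℝ) ≤ (2 * D + 3) ^ 2 * u ^ 2 := by
      have e : I.card = (2 * A + 1) ^ 2 := by
        simp only [I, Finset.card_product, Int.card_Icc]
        rw [show ((A : ℤ) + 1 - -(A : ℤ)).toNat = 2 * A + 1 by omega, sq]
      rw [e, ← mul_pow]
      push_cast
      exact pow_le_pow_left₀ (by positivity) (by nlinarith) 2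
    have k4 := (p.pr_union_le _ _).trans (add_le_add k1 ((p.pr_biUnion_le _ _).trans k2))
    rw [nsmul_eq_mul] at k4
    have k5 : (I.card : ℝ) * (2 * (K / (l * u ^ 2))) ≤
        (2 * D + 3) ^ 2 * u ^ 2 * (2 * (K / (l * u ^ 2))) :=
      mul_le_mul_of_nonneg_right k3 (by positivity)
    have k6 : (2 * D + 3) ^ 2 * u ^ 2 * (2 * (K / (l * u ^ 2))) = 2 * (2 * D + 3) ^ 2 * K / l := by
      field_simp
    have k7 : K / (l * u ^ 2) ≤ K / l :=
      div_le_div_of_nonneg_left hK0 (by positivity) (by nlinarith [one_le_pow₀ (n := 2) hu1])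
    have k8 : K / l + 2 * (2 * D + 3) ^ 2 * K / l < 1 := by
      rw [← add_div, div_lt_one (by positivity), hl]
      linarith
    linarith
  obtain ⟨y, hy0, hy1, hy2⟩ := split p τ x j (by omega) (by omega)
  have ha : ∀ c : ℤ, |(c : ℝ)| ≤ D * n → c / m ∈ Finset.Icc (-(A : ℤ)) A := by
    intro c hc
    refine hA2 _ (le_of_mul_le_mul_left ((round c m hm0).2.trans ?_) (by exact_mod_cast hm0))
    have k : D * u * u ^ 3 ≤ D * u * m := mul_le_mul_of_nonneg_left hm1 (by positivity)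
    have k2 : (m : ℝ) * 1 ≤ m * u := mul_le_mul_of_nonneg_left hu1 (by positivity)
    rw [hu4] at hc
    nlinarith
  have hy3 := hy1.trans hx2
  have hyI : (y 1 / m, y 2 / m) ∈ I := by
    unfold n1 at hy3
    have := abs_nonneg ((y 0 : ℤ) : ℝ)
    have := abs_nonneg ((y 1 : ℤ) : ℝ)
    have := abs_nonneg ((y 2 : ℤ) : ℝ)
    exact Finset.mem_product.2 ⟨ha _ (by linarith), ha _ (by linarith)⟩
  obtain ⟨z, hz⟩ : ∃ z, z = Y (y 1 / m, y 2 / m) := ⟨_, rfl⟩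
  have hz0 : z 0 = j := by simp [hz, Y]
  have hz1 : n1 (y - z) ≤ 2 * m := by
    have b1 := (round (y 1) m hm0).1
    have b2 := (round (y 2) m hm0).1
    simp only [n1, hz, Y, Pi.sub_apply, pt_zero, pt_one, pt_two, hy0, sub_self, Int.cast_zero,
      abs_zero, Int.cast_sub]
    linarith
  simp only [Set.mem_union, Set.mem_iUnion, Set.mem_ofPred_eq, not_or, not_exists, not_le,
    sub_zero] at hτ
  obtain ⟨t1, t2⟩ := hτ
  obtain ⟨t2, t3⟩ := t2 _ hyI
  rw [← hz] at t2 t3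
  have s1 := p.T_lip τ 0 z y
  have s2 := p.T_tri τ z y x
  have s3 := p.T_le τ z y
  rw [n1_sub_comm] at s1
  have s4 : p.b * n1 (y - z) ≤ p.b * (4 * u ^ 3) := mul_le_mul_of_nonneg_left (by linarith) hb.le
  have key : p.g d z + p.g d (x - z) ≤ p.g d x + (3 * l + 8 * p.b) * n / u := by
    have e : (3 * l + 8 * p.b) * n / u = (3 * l + 8 * p.b) * u ^ 3 := by
      rw [hu4]; field_simp
    unfold Par.g
    rw [e, d.ρ_sub]
    linarith [(abs_lt.1 t1).2, (abs_lt.1 t2).1, (abs_lt.1 t3).1]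
  by_cases hcase : p.g d z * n ≤ (p.g d x + (3 * l + 8 * p.b) * n / u) * j
  · exact ⟨j, z, by omega, by omega, hz0, hcase⟩
  · refine ⟨n - j, x - z, by omega, by omega, ?_, ?_⟩
    · rw [Pi.sub_apply, hx, hz0]; omega
    · rw [Nat.cast_sub (by omega)]
      nlinarith [mul_le_mul_of_nonneg_right key (by positivity : (0 : ℝ) ≤ n)]

theorem bCHAIN2 : St_CHAIN2 := by
  intro Q f δ e β₀ n₁ N h1 he hf hδ mono step hfd hb n
  induction n using Nat.strong_induction_on with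
  | _ n ih =>
    intro hn hN hQ
    obtain ⟨n', a1, a2, a3⟩ := step n _ hn hN (add_nonneg he (hf n)) (hb n hn) hQ
    have a4 : Q n' (e + f n') := mono _ _ _ (add_nonneg (add_nonneg he (hf n)) (hδ n))
      (by linarith [hfd n n' (by omega) a2]) a3
    by_cases h : n' < n₁
    · exact ⟨n', by omega, h, a4⟩
    · exact ih n' (by omega) (by omega) (by omega) a4

end Pool.Agent.Lib.V3
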