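import Pool.Agent.Lib.V3.Prob
import Pool.Agent.Lib.V3Q.Blue
import Pool.Agent.Lib.FP95.B_ES
import Pool.Agent.Lib.FP95.B_RES

/-! Block KES: linear bound for the variance of the passage time in dimension three. -/

namespace Pool.Agent.Lib.V3

open MeasureTheory ProbabilityTheory Function Pool.Agent.Lib.FP95.ES
open scoped NNReal

namespace KES

theorem mu (e : Sym2 V) : Measurable fun z : Cfg × ℝ≥0 => update z.1 e z.2 := measurable_update'

/-- the squared increments -/
def inc (f : Cfg → ℝ) (e : Sym2 V) (τ : Cfg) (t : ℝ≥0) : ℝ := max (f (update τ e t) - f τ) 0 ^ 2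

theorem bm_inc {f : Cfg → ℝ} (hf : BM f) (e : Sym2 V) : BM fun z : Cfg × ℝ≥0 => inc f e z.1 z.2 :=
  ((hf.comp (mu e)).sub (hf.comp measurable_fst)).pos.sq

theorem es (p : Par) (f : Cfg → ℝ) (A : Finset (Sym2 V)) (hf : Nice f)
    (hd : DependsOn f (A : Set (Sym2 V))) : variance f p.P ≤
    ∑ e ∈ A, ∫ τ, ∫ t, (max (f (Function.update τ e t) - f τ) 0) ^ 2 ∂p.F ∂p.P := by
  have := p.prob
  have : IsProbabilityMeasure p.P := by unfold Par.P; infer_instance
  have iu : ∀ {g : Cfg → ℝ}, BM g → ∀ e,
      ∫ τ, g τ ∂p.P = ∫ τ, ∫ t, g (update τ e t) ∂p.F ∂p.P := fun {g} hg e => by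
    rw [← integral_prod (fun z : Cfg × ℝ≥0 => g (update z.1 e z.2)) ((hg.comp (mu e)).int _),
      ← integral_map (mu e).aemeasurable hg.1.aestronglyMeasurable, show (p.P.prod p.F).map _ = p.P from (FP95.RES.resample p.F e).map_eq]
  rw [variance_eq_integral hf.1.aemeasurable]
  change _ ≤ ∑ e ∈ A, ∫ τ, ∫ t, inc f e τ t ∂p.F ∂p.P
  replace hf : BM f := hf
  induction A using Finset.induction_on generalizing f with
  | empty =>
    have e : f = fun _ => f 0 := funext fun τ => hd (by simp)
    rw [e]
    simp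
  | insert a S ha ih =>
    have u : BM fun z : Cfg × ℝ≥0 => f (update z.1 a z.2) := hf.comp (mu a)
    have hg := BM.par (f := fun τ t => f (update τ a t)) u p.F
    have h4 := ih (fun τ => ∫ t, f (update τ a t) ∂p.F) (fun τ τ' h => ?_) hg
    · have h1 : ∫ τ, (f τ - ∫ τ, f τ ∂p.P) ^ 2 ∂p.P =
          ∫ τ, (∫ t, f (update τ a t) ∂p.F - ∫ τ, f τ ∂p.P) ^ 2 ∂p.P +
            ∫ τ, ∫ t, inc f a τ t ∂p.F ∂p.P := by
        have k := (bm_inc hf a).par p.F
        rw [iu (hf.sub (bm_const _)).sq a, iu k a, ← integral_add ((hg.sub (bm_const _)).sq.int _)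
          ((BM.par (f := fun τ t => ∫ s, inc f a (update τ a t) s ∂p.F) (k.comp (mu a)) p.F).int _)]
        refine integral_congr_ae (ae_of_all _ fun τ => ?_)
        simp only [inc, update_idem]
        exact one (BM.sec (f := fun τ t => f (update τ a t)) u τ) _
      have h2 : ∀ e ∈ S, ∫ τ, ∫ t, inc (fun τ => ∫ t, f (update τ a t) ∂p.F) e τ t ∂p.F ∂p.P ≤
          ∫ τ, ∫ t, inc f e τ t ∂p.F ∂p.P := fun e he => by
        have hea : e ≠ a := fun h => ha (h ▸ he)
        have k := (bm_inc hf e).par p.F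
        rw [iu k a]
        refine integral_mono (((bm_inc hg e).par p.F).int _)
          ((BM.par (f := fun τ s => ∫ t, inc f e (update τ a s) t ∂p.F) (k.comp (mu a)) p.F).int _)
          fun τ => ?_
        have k2 : BM fun z : ℝ≥0 × ℝ≥0 => inc f e (update τ a z.2) z.1 :=
          (bm_inc hf e).comp (g := fun z : ℝ≥0 × ℝ≥0 => (update τ a z.2, z.1))
            (((measurable_update τ).comp measurable_snd).prodMk measurable_fst)
        refine le_trans ?_ (integral_integral_swap (f := fun t s => inc f e (update τ a s) t)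
          (k2.int _)).le
        refine integral_mono (((bm_inc hg e).sec τ).int _)
          ((BM.par (f := fun t s => inc f e (update τ a s) t) k2 p.F).int _) fun t => ?_
        have k3 := fun σ => BM.sec (f := fun τ t => f (update τ a t)) u σ
        simp only [inc]
        rw [← integral_sub ((k3 _).int _) ((k3 _).int _)]
        simp only [← update_comm hea]
        exact jen ((k3 _).sub (k3 _))
      rw [h1, Finset.sum_insert ha, add_comm, iu hf a]
      exact add_le_add le_rfl (h4.trans (Finset.sum_le_sum h2))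
    · refine integral_congr_ae (ae_of_all _ fun t => hd fun e he => ?_)
      by_cases hea : e = a
      · subst hea
        simp
      · rw [update_of_ne hea, update_of_ne hea]
        exact h e ((Finset.mem_insert.1 he).resolve_left hea)

/-- unordered pairs of sites within distance `t` of `u` -/
def near (u : V) (t : ℝ) : Set (Sym2 V) := {e | ∀ z ∈ e, n1 (z - u) ≤ t}

theorem near_finite (u : V) (t : ℝ) : (near u t).Finite := by
  refine (((Fintype.piFinset fun _ : Fin 3 => Finset.Icc (-⌊t⌋) ⌊t⌋).image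
    (· + u)).sym2.finite_toSet).subset fun e he => ?_
  rw [Finset.mem_coe, Finset.mem_sym2_iff]
  refine fun z hz => Finset.mem_image.2 ⟨z - u, ?_, by simp⟩
  have h := he z hz
  rw [Fintype.mem_piFinset]
  intro i
  have hi : |(((z - u) i : ℤ) : ℝ)| ≤ t := by
    unfold n1 at h
    have := abs_nonneg (((z - u) 0 : ℤ) : ℝ)
    have := abs_nonneg (((z - u) 1 : ℤ) : ℝ)
    have := abs_nonneg (((z - u) 2 : ℤ) : ℝ)
    fin_cases i <;> simp only [Fin.zero_eta, Fin.mk_one, Fin.reduceFinMk] <;> linarith
  rw [Finset.mem_Icc, ← abs_le, Int.le_floor]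
  exact_mod_cast hi

theorem T_dep (p : Par) (u v : V) :
    DependsOn (fun τ => p.T τ u v) (near u (p.b / p.r * n1 (v - u))) := by
  have key : ∀ τ τ' : Cfg, (∀ e ∈ near u (p.b / p.r * n1 (v - u)), τ e = τ' e) →
      p.T τ u v ≤ p.T τ' u v := by
    intro τ τ' h
    obtain ⟨q, -, hq⟩ := p.exists_geo τ' u v
    rw [← hq]
    refine (p.T_le_LW τ q).trans (p.LW_le_LW fun e he => (h e fun z hz => ?_).le)
    have hs : z ∈ q.support := SimpleGraph.Walk.mem_support_of_mem_edges he hz
    have h1 := n1_le_length (q.takeUntil z hs)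
    have h2 : ((q.takeUntil z hs).length : ℝ) ≤ q.length := by
      exact_mod_cast q.length_takeUntil_le_length hs
    exact h1.trans (h2.trans (p.geo_length hq))
  exact fun τ τ' h => le_antisymm (key _ _ h) (key _ _ fun e he => (h e he).symm)

open Classical in
theorem LW_upd (p : Par) (τ : Cfg) (e : Sym2 V) (t : ℝ≥0) {l : List (Sym2 V)} (hl : l.Nodup) :
    p.LW (Function.update τ e t) l ≤ p.LW τ l + if e ∈ l then p.b else 0 := by
  induction l with
  | nil => simp
  | cons a l ih =>
    rw [List.nodup_cons] at hl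
    have h := ih hl.2
    rw [Par.LW_cons, Par.LW_cons]
    by_cases ha : a = e
    · subst ha
      rw [if_neg hl.1] at h
      rw [if_pos List.mem_cons_self, Function.update_self]
      linarith [p.w_le t, p.w_ge (τ a), p.r_pos]
    · rw [Function.update_of_ne ha]
      by_cases he : e ∈ l
      · rw [if_pos he] at h
        rw [if_pos (List.mem_cons_of_mem _ he)]
        linarith
      · rw [if_neg he] at h
        rw [if_neg (fun h' => (List.mem_cons.1 h').elim (fun h'' => ha h''.symm) he)]
        linarith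

end KES

open KES in
theorem bKES : St_KES := by
  classical
  intro p
  have := p.prob
  have hb := p.b_pos
  have hr := p.r_pos
  refine ⟨p.b ^ 2 * (p.b / p.r), by positivity, fun v => ?_⟩
  have hfin := near_finite (0 : V) (p.b / p.r * n1 (v - 0))
  have h1 := es p (fun τ => p.T τ 0 v) hfin.toFinset (p.T_nice 0 v)
    (by rw [hfin.coe_toFinset]; exact T_dep p 0 v)
  refine le_trans h1 ?_
  set g : Sym2 V → Cfg → ℝ := fun e τ =>
    ∫ t, (max (p.T (Function.update τ e t) 0 v - p.T τ 0 v) 0) ^ 2 ∂p.F with hg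
  have key : ∀ τ, ∃ l : List (Sym2 V), (l.length : ℝ) ≤ p.b / p.r * n1 v ∧
      ∀ e, 0 ≤ g e τ ∧ g e τ ≤ if e ∈ l then p.b ^ 2 else 0 := by
    intro τ
    obtain ⟨q, hq, hw⟩ := p.exists_geo τ 0 v
    refine ⟨q.edges, by simpa using p.geo_length hw, fun e =>
      ⟨integral_nonneg fun t => sq_nonneg _, ?_⟩⟩
    have h2 : ∀ t, (max (p.T (Function.update τ e t) 0 v - p.T τ 0 v) 0) ^ 2 ≤
        if e ∈ q.edges then p.b ^ 2 else 0 := by
      intro t
      have h3 := KES.LW_upd p τ e t hq.isTrail.edges_nodup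
      have h4 := p.T_le_LW (Function.update τ e t) q
      split_ifs at h3 ⊢
      · exact pow_le_pow_left₀ (le_max_right _ _) (max_le (by linarith) hb.le) 2
      · rw [max_eq_right (by linarith)]; simp
    have h5 := integral_mono_of_nonneg (μ := p.F) (ae_of_all _ fun t => sq_nonneg _)
      (integrable_const _) (ae_of_all _ h2)
    simpa using h5
  have hn : ∀ e, Nice (g e) := by
    intro e
    refine ⟨?_, p.b ^ 2, fun τ => ?_⟩
    · have hm : Measurable fun z : Cfg × ℝ≥0 =>
          (max (p.T (Function.update z.1 e z.2) 0 v - p.T z.1 0 v) 0) ^ 2 :=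
        ((((p.T_meas 0 v).comp measurable_update').sub
          ((p.T_meas 0 v).comp measurable_fst)).max measurable_const).pow_const 2
      exact (hm.stronglyMeasurable.integral_prod_right' (ν := p.F)).measurable
    · obtain ⟨l, -, hl⟩ := key τ
      rw [abs_of_nonneg (hl e).1]
      refine (hl e).2.trans ?_
      split_ifs
      · exact le_rfl
      · positivity
  change ∑ e ∈ hfin.toFinset, ∫ τ, g e τ ∂p.P ≤ _
  rw [← integral_finsetSum _ fun e _ => (hn e).int p.P]
  have h6 : ∀ τ, ∑ e ∈ hfin.toFinset, g e τ ≤ p.b ^ 2 * (p.b / p.r) * n1 v := by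
    intro τ
    obtain ⟨l, hl0, hl⟩ := key τ
    refine (Finset.sum_le_sum fun e _ => (hl e).2).trans ?_
    rw [← Finset.sum_filter, Finset.sum_const, nsmul_eq_mul]
    have h7 : ((hfin.toFinset.filter fun e => e ∈ l).card : ℝ) ≤ l.length := by
      have h8 : (hfin.toFinset.filter fun e => e ∈ l).card ≤ l.toFinset.card :=
        Finset.card_le_card fun e he => List.mem_toFinset.2 (Finset.mem_filter.1 he).2
      exact_mod_cast h8.trans (List.toFinset_card_le l)
    nlinarith [mul_le_mul_of_nonneg_left (h7.trans hl0) (sq_nonneg p.b)]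
  have h9 := integral_mono ((Nice.sum _ fun e _ => hn e).int p.P)
    ((Nice.const (p.b ^ 2 * (p.b / p.r) * n1 v)).int p.P) h6
  simpa using h9

end Pool.Agent.Lib.V3
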