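import Pool.Agent.Lib.V3.Prob
import Pool.Agent.Lib.V3Q.Blue

/-! Block START2: the initial scale with a rate. -/

namespace Pool.Agent.Lib.V3

namespace START2

theorem rt_ge {w n : ℕ} (h : w ^ 4 ≤ n) : (w : ℝ) ≤ √(√(n : ℝ)) := by
  refine Real.le_sqrt_of_sq_le (Real.le_sqrt_of_sq_le ?_)
  rw [← pow_mul]
  exact_mod_cast h

/-- a site with a small excess at every scale -/
theorem site (hH : St_HALVE) (hC : St_CHAIN2) (p : Par) (d : Dat) (g : p.Good d) :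
    ∃ C : ℝ, 1 ≤ C ∧ ∀ w : ℕ, C ≤ w → ∃ (n : ℕ) (x : V), w ^ 4 ≤ n ∧ n ≤ 3 * w ^ 4 ∧ x 0 = n ∧
      p.g d x ≤ C / w * n := by
  obtain ⟨C, C0, H⟩ := hH p d g
  refine ⟨1 + 10 * C, by linarith, fun w hw => ?_⟩
  have w1 : (1 : ℝ) ≤ w := by linarith
  have w1' : 1 ≤ w := by exact_mod_cast w1
  have w4 : 1 ≤ w ^ 4 := Nat.one_le_pow _ _ w1'
  have hf : ∀ n : ℕ, w ^ 4 ≤ n → 1 / (w : ℝ) + 10 * C / √(√(n : ℝ)) ≤ (1 + 10 * C) / w := by
    intro n hn
    rw [add_div]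
    exact add_le_add le_rfl (div_le_div_of_nonneg_left (by positivity) (by linarith) (rt_ge hn))
  obtain ⟨z, hz, hzg⟩ := g.G3 (1 / w) (by positivity) (3 * w ^ 4)
  obtain ⟨N, hN⟩ : ∃ N : ℕ, z 0 = N := ⟨(z 0).toNat, by omega⟩
  obtain ⟨m, m1, m2, x, hx, hg⟩ := hC (fun n γ => ∃ x : V, x 0 = n ∧ p.g d x ≤ γ * n)
    (fun n => 10 * C / √(√(n : ℝ))) (fun n => C / √(√(n : ℝ))) (1 / w) 1 (3 * w ^ 4) N (by omega)
    (by positivity) (fun n => by positivity) (fun n => by positivity)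
    (fun n β β' _ h ⟨x, hx, hg⟩ =>
      ⟨x, hx, hg.trans (mul_le_mul_of_nonneg_right h (Nat.cast_nonneg n))⟩)
    (fun n β hn _ _ h1 ⟨x, hx, hg⟩ => by
      have n0 : (0 : ℝ) < n := by exact_mod_cast (by omega : 0 < n)
      obtain ⟨n', x', a1, a2, a3, a4⟩ := H n x (by omega) hx
        (hg.trans (mul_le_of_le_one_left n0.le h1))
      refine ⟨n', a1, a2, x', a3, le_of_mul_le_mul_right (a4.trans ?_) n0⟩
      have e : (β + C / √(√(n : ℝ))) * n' * n = (β * n + C * n / √(√(n : ℝ))) * n' := by ring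
      rw [e]
      exact mul_le_mul_of_nonneg_right (by linarith) (Nat.cast_nonneg _))
    (fun n n' h1 h2 => by
      have a0 : (1 : ℝ) ≤ n' := by exact_mod_cast h1
      have a1 : 3 * (n' : ℝ) ≤ 2 * n := by exact_mod_cast h2
      have a2 : 0 < √(√(n' : ℝ)) := Real.sqrt_pos.2 (Real.sqrt_pos.2 (by linarith))
      have a3 : 11 / 10 * √(√(n' : ℝ)) ≤ √(√(n : ℝ)) := by
        refine Real.le_sqrt_of_sq_le (Real.le_sqrt_of_sq_le ?_)
        rw [mul_pow, Real.sq_sqrt (Real.sqrt_nonneg _), mul_pow, Real.sq_sqrt (by linarith)]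
        linarith
      rw [← add_div, div_le_div_iff₀ (by linarith) a2]
      nlinarith [mul_le_mul_of_nonneg_left a3 C0])
    (fun n hn => (hf n (by omega)).trans ((div_le_one (by linarith)).2 hw))
    N (by omega) le_rfl ⟨z, hN, by
      rw [hN, Int.cast_natCast] at hzg
      exact hzg.trans (mul_le_mul_of_nonneg_right (le_add_of_nonneg_right (by positivity))
        (Nat.cast_nonneg N))⟩
  exact ⟨m, x, by omega, by omega, hx,
    hg.trans (mul_le_mul_of_nonneg_right (hf m (by omega)) (Nat.cast_nonneg m))⟩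

theorem cube {p : Par} {d : Dat} (hg : p.Good d) {C : ℝ} (C1 : 1 ≤ C) {w n : ℕ} (w2 : 2 ≤ w)
    (hc : p.c1 ^ 2 ≤ w) (hn : w ^ 4 ≤ n) {x : V} (hx : x 0 = n) (hgx : p.g d x ≤ C / w * n) :
    p.PP d n ((C + 12 * p.b) / √w) := by
  have hb := p.b_pos
  have w2' : (2 : ℝ) ≤ w := by exact_mod_cast w2
  have hn' : (w : ℝ) ^ 4 ≤ n := by exact_mod_cast hn
  have hn0 : (0 : ℝ) ≤ n := Nat.cast_nonneg n
  obtain ⟨t, ht⟩ : ∃ t : ℝ, t = n / w := ⟨_, rfl⟩
  have et : (n : ℝ) = t * w := by rw [ht]; field_simp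
  have t3 : (w : ℝ) ^ 3 ≤ t := by
    rw [ht, le_div_iff₀ (by linarith)]
    linarith [pow_succ (w : ℝ) 3]
  have t1 : 1 ≤ t := (one_le_pow₀ (by linarith)).trans t3
  obtain ⟨m, hm1, hm2⟩ : ∃ m : ℕ, t ≤ m ∧ (m : ℝ) ≤ 2 * t :=
    ⟨⌈t⌉₊, Nat.le_ceil _, by linarith [Nat.ceil_lt_add_one (by linarith : 0 ≤ t)]⟩
  have hmn : m ≤ n := by
    have : (m : ℝ) ≤ n := by nlinarith
    exact_mod_cast this
  have hxr : ((x 0 : ℤ) : ℝ) = n := by rw [hx]; simp
  have e1 : C / w * n = C * t := by rw [ht]; ring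
  have e2 : ((C + 12 * p.b) / √(w : ℝ)) ^ 2 * n = (C + 12 * p.b) ^ 2 * t := by
    rw [div_pow, Real.sq_sqrt (by linarith), ht]; ring
  have e3 : (C + 12 * p.b) * t ≤ (C + 12 * p.b) ^ 2 * t :=
    mul_le_mul_of_nonneg_right (by nlinarith) (by linarith)
  have e4 : 0 ≤ p.b * t := by positivity
  rw [e1] at hgx
  refine ⟨⟨x, hx, by rw [e2]; linarith⟩,
    (Finset.range m ×ˢ Finset.range m ×ˢ Finset.range m).image
      fun t : ℕ × ℕ × ℕ => x + pt t.1 t.2.1 t.2.2, ?_, ?_⟩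
  · intro v hv
    obtain ⟨⟨i, j, k⟩, ht, rfl⟩ := Finset.mem_image.1 hv
    simp only [Finset.mem_product, Finset.mem_range] at ht
    obtain ⟨hi, hj, hk⟩ := ht
    refine ⟨?_, ?_, ?_⟩
    · simp only [Pi.add_apply, pt_zero]
      omega
    · simp only [Pi.add_apply, pt_zero]
      omega
    · have a1 := hg.g_lip x (pt i j k)
      have a2 : n1 (pt i j k) = (i : ℝ) + j + k := by simp [n1]
      have hi' : (i : ℝ) ≤ m := by exact_mod_cast hi.le
      have hj' : (j : ℝ) ≤ m := by exact_mod_cast hj.le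
      have hk' : (k : ℝ) ≤ m := by exact_mod_cast hk.le
      have a3 : 2 * p.b * n1 (pt i j k) ≤ 2 * p.b * (6 * t) :=
        mul_le_mul_of_nonneg_left (by rw [a2]; linarith) (by positivity)
      have a5 : 0 ≤ ((C + 12 * p.b) / √(w : ℝ)) ^ 2 * (i : ℝ) := by positivity
      simp only [Pi.add_apply, pt_zero, Int.cast_add, Int.cast_natCast, hxr]
      linarith
  · rw [Finset.card_image_of_injective]
    · simp only [Finset.card_product, Finset.card_range, Nat.cast_mul]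
      have a1 : t ^ 3 ≤ (m : ℝ) ^ 3 := pow_le_pow_left₀ (by linarith) hm1 3
      have a2 : p.cS ≤ w := by
        refine le_trans ?_ hc
        unfold Par.cS
        exact div_le_self (sq_nonneg _) (by nlinarith [p.one_le])
      have a3 := mul_le_mul_of_nonneg_right a2 (sq_nonneg (n : ℝ))
      have a4 : (w : ℝ) * n ^ 2 = w ^ 3 * t ^ 2 := by rw [et]; ring
      have a5 := mul_le_mul_of_nonneg_right t3 (sq_nonneg t)
      linarith
    · rintro ⟨i, j, k⟩ ⟨i', j', k'⟩ h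
      simp only [add_right_inj, vext_iff, pt_zero, pt_one, pt_two, Nat.cast_inj] at h
      simp [h.1, h.2.1, h.2.2]

end START2

theorem bSTART2 (hH : St_HALVE) (hC : St_CHAIN2) : St_START2 := by
  intro p d g
  obtain ⟨C, C1, H⟩ := START2.site hH hC p d g
  obtain ⟨k, hk⟩ := exists_nat_ge (C + p.c1 ^ 2)
  have hb := p.b_pos
  refine ⟨C + 12 * p.b, k + 2, by linarith, fun σ h w hw => ?_⟩
  have hw' : (k : ℝ) ≤ w := by exact_mod_cast (by omega : k ≤ w)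
  obtain ⟨n, x, n1, n2, hx, hg⟩ := H w (by linarith [sq_nonneg p.c1])
  exact ⟨n, n1, n2, START2.cube (p := p.sig σ h) ⟨g.1, g.2, g.3, g.4, g.5, g.6, g.7, g.8, g.9,
    g.10, g.11⟩ C1 (by omega) (show p.c1 ^ 2 ≤ w by linarith) n1 hx hg⟩

end Pool.Agent.Lib.V3
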