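import Pool.Agent.Lib.V3Q.Blue
import Pool.Agent.Lib.V3.Prob

/-! Row STEP2: one change of scale, with constants free of the variance bound. -/

namespace Pool.Agent.Lib.V3

namespace STEP2

theorem gain {β z r B a c s K : ℝ} (h0 : 0 ≤ β) (h1 : β ≤ 1) (hz : 0 ≤ z) (hr : 0 ≤ r)
    (h2 : 2 ≤ r ^ 2) (e : z * r = B * s) (ha : 0 ≤ a) (hc : 0 ≤ c) (hB : B = c + 2 * a + 2)
    (hs : 1 ≤ s) (hK : K ≤ c * s ^ 2) :
    (β * r) ^ 2 + K + 2 * (a * s * (β * r + s)) ≤ (β + z) ^ 2 * (r ^ 2 - 1) := by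
  have i : (β + z) ^ 2 * (r ^ 2 - 1) = (β * r) ^ 2 - β ^ 2 + (β * r) * (z * r) + (z * r) ^ 2 / 2 +
      (2 * β * z + z ^ 2) * (r ^ 2 / 2 - 1) := by ring
  have j1 : 0 ≤ (2 * β * z + z ^ 2) * (r ^ 2 / 2 - 1) := mul_nonneg (by positivity) (by linarith)
  have j2 : β ^ 2 ≤ 1 := pow_le_one₀ h0 h1
  have s0 : 0 ≤ s := by linarith
  have j3 : β * r * s * (2 * a) ≤ β * r * s * B :=
    mul_le_mul_of_nonneg_left (by linarith) (by positivity)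
  have j4 : B * 2 ≤ B * B := mul_le_mul_of_nonneg_left (by linarith) (by linarith)
  have j5 : s ^ 2 * (B * 2) ≤ s ^ 2 * (B * B) := mul_le_mul_of_nonneg_left j4 (by positivity)
  have j6 : 1 ≤ s ^ 2 := one_le_pow₀ hs
  have j7 : s ^ 2 * B = c * s ^ 2 + 2 * a * s ^ 2 + 2 * s ^ 2 := by rw [hB]; ring
  rw [i, e]
  linarith

theorem win {ε c C u A g s K : ℝ} (hc : 0 ≤ c) (hC : 0 ≤ C) (hu : 0 ≤ u) (hε : 0 < ε) (hA : 1 ≤ A)
    (h : 36 * (1 + c + 4 * C) ≤ ε * A) (hg : g ≤ u ^ 2) (hs : 0 ≤ s) (hK : K ≤ c * s ^ 2) :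
    36 * (g + K + 2 * (C * (2 * u ^ 2 + s ^ 2))) ≤ ε * (A * (u + s)) ^ 2 := by
  have j1 : ε * A * 1 ≤ ε * A * A := mul_le_mul_of_nonneg_left hA (by positivity)
  have j0 : 0 ≤ u * s := by positivity
  have j2 : 36 * (1 + c + 4 * C) * (u ^ 2 + s ^ 2) ≤ ε * A * A * (u + s) ^ 2 :=
    mul_le_mul (by linarith) (by linarith [add_sq u s]) (by positivity) (by positivity)
  have j3 : 0 ≤ c * u ^ 2 := by positivity
  have j4 : 0 ≤ C * s ^ 2 := by positivity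
  have j5 : 0 ≤ s ^ 2 := by positivity
  linarith [show ε * (A * (u + s)) ^ 2 = ε * A * A * (u + s) ^ 2 by ring]

theorem core (hC : St_CORE2) (p : Par) (d : Dat) (C A a c : ℝ) (N : ℕ) (hG : p.Good d)
    (hR : p.Rare) (C0 : 0 ≤ C) (hc : c = 10 + p.b) (A1 : 1 ≤ A)
    (A2 : 36 * (1 + c + 4 * C) ≤ d.ε * A) (a0 : 0 ≤ a) (a1 : p.c1 * a = 300 * A)
    (hV : p.VarM ((1 + 2 * p.R + 4 * A) * N)) (hL : p.LowB2 d C N) (n : ℕ) (β : ℝ)
    (hn : (2 * (c + C) + 24) * p.σ ^ 4 ≤ n) (hN : n ≤ N) (β0 : 0 ≤ β) (β1 : β ≤ 1 / (2 + 4 * C))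
    (hP : p.PP d n β) :
    ∃ n' : ℕ, n ≤ 3 * n' ∧ 3 * n' ≤ 2 * n ∧ p.PP d n' (β + (c + 2 * a + 2) * p.σ ^ 2 / √n) := by
  have s1 := p.one_le
  have b0 := p.b_pos
  have r0' := p.r_pos
  have e0 := hG.ε_pos
  have cp : 0 ≤ c := by rw [hc]; positivity
  have R0 : 0 ≤ p.R := by unfold Par.R; positivity
  obtain ⟨s, hs⟩ : ∃ s, s = p.σ ^ 2 := ⟨_, rfl⟩
  have s4 : p.σ ^ 4 = s ^ 2 := by rw [hs]; ring
  have s2 : 1 ≤ s := hs ▸ one_le_pow₀ s1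
  have s3 : 1 ≤ s ^ 2 := one_le_pow₀ s2
  have s5 : p.σ ≤ s ^ 2 := s4 ▸ le_self_pow₀ s1 (by norm_num)
  have hK : 10 * p.σ + p.b ≤ c * s ^ 2 := by
    have := mul_le_mul_of_nonneg_left s3 b0.le
    rw [hc]
    linarith
  rw [s4] at hn
  rw [← hs]
  obtain ⟨⟨x, x0, hx⟩, S, hS, cS⟩ := hP
  have q0 : 0 ≤ (c + C) * s ^ 2 := by positivity
  have n24 : (24 : ℝ) ≤ n := by linarith
  have n24' : 24 ≤ n := by exact_mod_cast n24
  obtain ⟨r, hr⟩ : ∃ r, r = √(n : ℝ) := ⟨_, rfl⟩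
  have r0 : 0 < r := hr ▸ Real.sqrt_pos.2 (by linarith)
  have r2 : r ^ 2 = n := hr ▸ Real.sq_sqrt (by linarith)
  rw [le_div_iff₀ (by positivity)] at β1
  have β2 : β ≤ 1 := by linarith [mul_nonneg β0 C0]
  have β3 : β ^ 2 * (2 + 4 * C) ≤ 1 :=
    (mul_le_mul_of_nonneg_right (pow_le_of_le_one β0 β2 two_ne_zero) (by positivity)).trans β1
  have u2 : (β * r) ^ 2 = β ^ 2 * n := by rw [mul_pow, r2]
  have u3 : (β * r) ^ 2 * (2 + 4 * C) ≤ n := by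
    have := mul_le_mul_of_nonneg_right β3 (Nat.cast_nonneg n : (0 : ℝ) ≤ n)
    rw [u2]
    linarith
  have u4 : 0 ≤ (β * r) ^ 2 * C := by positivity
  have u5 : β * r ≤ r := mul_le_of_le_one_left r0.le β2
  have u6 : s ≤ r := by
    refine le_of_sq_le_sq ?_ r0.le
    linarith
  have u7 : √((n : ℝ) * (A * (β * r + s)) ^ 2) ≤ 2 * A * n := by
    rw [← r2, ← mul_pow, Real.sqrt_sq (by positivity)]
    have := mul_le_mul_of_nonneg_left (show β * r + s ≤ 2 * r by linarith)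
      (show 0 ≤ r * A by positivity)
    linarith
  have u8 : (1 + 2 * p.R + 4 * A) * n ≤ (1 + 2 * p.R + 4 * A) * N :=
    mul_le_mul_of_nonneg_left (by exact_mod_cast hN) (by positivity)
  rw [← u2] at hx
  obtain ⟨W, hW, cW⟩ := hC p d _ hG hV hR n x (C * (2 * (β * r) ^ 2 + s ^ 2))
    ((A * (β * r + s)) ^ 2) (a * s * (β * r + s)) n24' x0 (by positivity) (by linarith)
    (fun j hj => s4 ▸ hL n _ S j (by omega) hN (by positivity) (by linarith)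
      (fun v hv => ⟨(hS v hv).1, (hS v hv).2.1, (hS v hv).2.2.trans (by
        have h : (v 0 : ℝ) ≤ 2 * n := by exact_mod_cast (hS v hv).2.1
        have := mul_le_mul_of_nonneg_left h (sq_nonneg β)
        linarith)⟩) cS (by omega) (by omega))
    (one_le_pow₀ (one_le_mul_of_one_le_of_one_le A1 (by linarith [mul_nonneg β0 r0.le])))
    (by linarith [win cp C0 (by positivity : 0 ≤ β * r) e0 A1 A2 hx (by linarith : 0 ≤ s) hK])
    (by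
      rw [Real.sqrt_sq (by positivity), ← hs, ← mul_assoc p.c1, ← mul_assoc p.c1, a1]
      exact le_of_eq (by ring))
    (by linarith)
  have key : ∀ v ∈ W, p.g d v ≤ (β + (c + 2 * a + 2) * s / √(n : ℝ)) ^ 2 * v 0 := fun v hv => by
    obtain ⟨w1, -, w3⟩ := hW v hv
    have v0 : (0 : ℝ) ≤ v 0 := by exact_mod_cast (by omega : 0 ≤ v 0)
    have g := gain β0 β2 (by positivity : 0 ≤ (c + 2 * a + 2) * s / r) r0.le (by linarith)
      (div_mul_cancel₀ _ r0.ne') a0 cp rfl s2 hK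
    rw [r2] at g
    have g2 := mul_le_mul_of_nonneg_left
      (show p.g d x + 10 * p.σ + p.b + 2 * (a * s * (β * r + s)) ≤
        (β + (c + 2 * a + 2) * s / r) ^ 2 * (n - 1) by linarith) v0
    rw [← hr]
    refine le_of_mul_le_mul_right ?_ (by linarith : (0 : ℝ) < n - 1)
    linarith
  have cp2 : 0 < p.cS * (n : ℝ) ^ 2 := mul_pos p.cS_pos (by positivity)
  obtain ⟨y, hy⟩ : W.Nonempty := Finset.card_pos.1 (by exact_mod_cast cp2.trans_le cW)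
  obtain ⟨y1, y2, -⟩ := hW y hy
  obtain ⟨m, hm⟩ : ∃ m : ℕ, y 0 = m := ⟨(y 0).toNat, by omega⟩
  refine ⟨m, by omega, by omega, ⟨y, hm, ?_⟩, W, fun v hv => ⟨?_, ?_, key v hv⟩, ?_⟩
  · have := key y hy
    rwa [hm, Int.cast_natCast] at this
  · obtain ⟨w1, w2, -⟩ := hW v hv
    omega
  · obtain ⟨w1, w2, -⟩ := hW v hv
    omega
  · have h : (m : ℝ) ≤ n := by exact_mod_cast (by omega : m ≤ n)
    exact (mul_le_mul_of_nonneg_left (pow_le_pow_left₀ (Nat.cast_nonneg m) h 2)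
      p.cS_pos.le).trans cW

end STEP2

theorem bSTEP2 (hC : St_CORE2) : St_STEP2 := by
  intro p d C hG hR C0
  have b0 := p.b_pos
  have r0 := p.r_pos
  have e0 := hG.ε_pos
  have c0 := p.c1_pos
  have R0 : 0 ≤ p.R := by unfold Par.R; positivity
  obtain ⟨c, hc⟩ : ∃ c, c = 10 + p.b := ⟨_, rfl⟩
  have cp : 0 ≤ c := by rw [hc]; positivity
  obtain ⟨A, A1, A2⟩ : ∃ A : ℝ, 1 ≤ A ∧ 36 * (1 + c + 4 * C) ≤ d.ε * A := by
    refine ⟨1 + 36 * (1 + c + 4 * C) / d.ε, le_add_of_nonneg_right (by positivity), ?_⟩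
    rw [mul_add d.ε, mul_div_cancel₀ _ e0.ne']
    linarith
  obtain ⟨a, a0, a1⟩ : ∃ a : ℝ, 0 ≤ a ∧ p.c1 * a = 300 * A :=
    ⟨300 * A / p.c1, by positivity, mul_div_cancel₀ _ c0.ne'⟩
  refine ⟨c + 2 * a + 2, 1 / (2 + 4 * C), 2 * (c + C) + 24, 1 + 2 * p.R + 4 * A, by positivity,
    by positivity, by positivity, by positivity, fun σ h N hV hL n β hn hN β0 β1 hP => ?_⟩
  exact STEP2.core hC (p.sig σ h) d C A a c N
    ⟨hG.1, hG.2, hG.3, hG.4, hG.5, hG.6, hG.7, hG.8, hG.9, hG.10, hG.11⟩ hR C0 hc A1 A2 a0 a1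
    hV hL n β hn hN β0 β1 hP

end Pool.Agent.Lib.V3
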