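import Pool.Agent.Lib.V3Q.Blue
import Pool.Agent.Lib.V3.LowK8

/-! A uniform lower tail bound on a whole plane: finite range and explicit powers of `σ`. -/

namespace Pool.Agent.Lib.V3

open MeasureTheory ProbabilityTheory Filter Topology Function Finset SimpleGraph
  Pool.Agent.Lib.MP_eba68f_pr
open scoped NNReal ENNReal

namespace LOW2

open LOW

/-- good sites lie in the cone -/
lemma site {p : Par} {d : Dat} (g : p.Good d) {k : ℝ} {n : ℕ} {v : V} (hkn : k ≤ n)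
    (hv1 : (n : ℤ) ≤ 2 * v 0) (hv2 : v 0 ≤ 2 * n) (hv3 : p.g d v ≤ k) :
    n1 v ≤ (8 + 12 * p.R) * n := by
  have hb := p.b_pos
  have hr := p.r_pos
  have hv1' : (n : ℝ) ≤ 2 * v 0 := by exact_mod_cast hv1
  have hv2' : (v 0 : ℝ) ≤ 2 * n := by exact_mod_cast hv2
  have hn : (0 : ℝ) ≤ n := Nat.cast_nonneg n
  have h1 := g.g_ge v (by omega)
  have h3 := mul_le_mul_of_nonneg_left hv2' hb.le
  have m7 := mul_nonneg hb.le hn
  have c := cone p (x := |(v 1 : ℝ)| + |(v 2 : ℝ)|) (n := n) (t := v 0) (by linarith) hv1'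
  have c2 := mul_le_mul_of_nonneg_left hv2' p.R_pos.le
  have c3 := mul_nonneg p.R_pos.le hn
  unfold n1
  rw [abs_of_nonneg (by linarith : (0 : ℝ) ≤ v 0)]
  linarith

lemma main (hS : St_SUM) (p : Par) {d : Dat} (g : p.Good d) {a₁ L₀ : ℝ} (h0 : 0 ≤ a₁)
    (hL1 : 1 ≤ L₀) (hL2 : 368640000 ≤ d.ε * p.c1 ^ 2 * L₀) (N : ℕ)
    (hV : p.VarM ((8 + 12 * p.R) * N)) (hH : p.Half2 d a₁ ((8 + 12 * p.R) * N)) :
    p.LowB2 d (a₁ + 1 + p.R ^ 2 + p.b + L₀) N := by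
  intro n k S j hn hN hk hkn hSv hcard hj hj3
  have hb := p.b_pos
  have hε := g.ε_pos
  have hR := p.R_pos
  have hs := p.σ_pos
  have hs4 : p.σ ≤ p.σ ^ 4 := le_self_pow₀ p.one_le (by norm_num)
  have hs1 : 1 ≤ p.σ ^ 4 := p.one_le.trans hs4
  have hNn : (8 + 12 * p.R) * n ≤ (8 + 12 * p.R) * N :=
    mul_le_mul_of_nonneg_left (by exact_mod_cast hN) (by positivity)
  have hl : a₁ * (k + p.σ) + p.b + k / 6 + p.R ^ 2 + L₀ * p.σ ^ 4 ≤
      (a₁ + 1 + p.R ^ 2 + p.b + L₀) * (k + p.σ ^ 4) := by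
    have a1 := mul_le_mul_of_nonneg_left hs4 h0
    have a2 := mul_le_mul_of_nonneg_left hs1 hb.le
    have a3 := mul_le_mul_of_nonneg_left hs1 (sq_nonneg p.R)
    have a4 := mul_nonneg (sq_nonneg p.R) hk
    have a5 := mul_nonneg hb.le hk
    have a6 := mul_nonneg (zero_le_one.trans hL1) hk
    linarith
  have hup := LOWK.lowK hS g hn hkn (one_le_mul_of_one_le_of_one_le hL1 hs1) (sq_nonneg p.σ) hl
    hSv hj hj3 (fun z h0 h6 h1 h2 => hV z (le_trans (by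
      have a0 : (1 : ℝ) ≤ z 0 := by exact_mod_cast h0
      have a6 : (z 0 : ℝ) ≤ 6 * n := by exact_mod_cast h6
      have a7 := mul_le_mul_of_nonneg_left a6 hR.le
      unfold n1
      rw [abs_of_nonneg (by linarith : (0 : ℝ) ≤ z 0)]
      linarith) hNn)) fun v hv => by
      obtain ⟨h1, h2, h3⟩ := hSv v hv
      refine (hH v (by omega) ((site g hkn h1 h2 h3).trans hNn)).trans (p.pr_mono fun τ hτ => ?_)
      have h4 : p.TA (Up 0) τ 0 v - d.ρ v ≤ a₁ * (p.g d v + p.σ) := hτ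
      exact h4.trans (mul_le_mul_of_nonneg_left (by linarith) h0)
  have hP := p.pr_nonneg (p.Low d n j ((a₁ + 1 + p.R ^ 2 + p.b + L₀) * (k + p.σ ^ 4)))
  generalize p.pr (p.Low d n j ((a₁ + 1 + p.R ^ 2 + p.b + L₀) * (k + p.σ ^ 4))) = P at hup hP ⊢
  have hn' : (1 : ℝ) ≤ n := by exact_mod_cast hn
  have hn2 : 0 < (n : ℝ) ^ 2 := by positivity
  have hσ : 0 < p.σ ^ 2 := pow_pos hs 2
  have hL3 : 921600 * p.σ ^ 2 ≤ d.ε * p.cS * (L₀ * p.σ ^ 4) := by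
    have e : d.ε * p.cS * (L₀ * p.σ ^ 4) = d.ε * p.c1 ^ 2 * L₀ * p.σ ^ 2 / 400 := by
      unfold Par.cS
      field_simp
    rw [e]
    linarith [mul_le_mul_of_nonneg_right hL2 hσ.le]
  have hεL : 0 ≤ d.ε * (L₀ * p.σ ^ 4) := by positivity
  have a1 := mul_le_mul_of_nonneg_right hcard (mul_nonneg hP hεL)
  have a2 := mul_le_mul_of_nonneg_right hL3 (mul_nonneg hP hn2.le)
  refine le_of_mul_le_mul_left ?_ (mul_pos hσ hn2)
  linarith

end LOW2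

theorem bLOW2 (hS : St_SUM) : St_LOW2 := by
  intro p d a₁ g h0
  have hb := p.b_pos
  have hε := g.ε_pos
  have hR := p.R_pos
  have hc : 0 < d.ε * p.c1 ^ 2 := mul_pos hε (pow_pos p.c1_pos 2)
  obtain ⟨L₀, hL1, hL2⟩ : ∃ L₀ : ℝ, 1 ≤ L₀ ∧ 368640000 ≤ d.ε * p.c1 ^ 2 * L₀ := by
    refine ⟨max 1 (368640000 / (d.ε * p.c1 ^ 2)), le_max_left _ _, ?_⟩
    rw [← div_le_iff₀' hc]
    exact le_max_right _ _
  refine ⟨a₁ + 1 + p.R ^ 2 + p.b + L₀, 8 + 12 * p.R, by positivity, by positivity,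
    fun σ h N hV hH => ?_⟩
  exact LOW2.main hS (p.sig σ h) ⟨g.ρ0_nonneg, g.ρ0_le, g.l1_le, g.l2_le, g.ε_pos, g.ε_le,
    g.θ1_le, g.θ2_le, g.G1, g.G2, g.G3⟩ h0 hL1 hL2 N hV hH

end Pool.Agent.Lib.V3
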