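import Pool.Agent.Lib.V3.B_HALF
import Pool.Agent.Lib.V3.B_OUT
import Pool.Agent.Lib.V3Q.Blue

/-! Blocks HALF2, MAIN2, RATE, FIN2: assembly of the rate. -/

namespace Pool.Agent.Lib.V3

open MeasureTheory ProbabilityTheory Filter Topology Pool.Agent.Lib.MP_eba68f_pr
open scoped NNReal ENNReal

theorem bHALF2 : St_HALF2 := fun p _ g =>
  ⟨HALF.C0 p.r p.b, 3 * (p.b / p.r), (HALF.C0_pos p).le, by linarith [p.one_le_ratio],
    fun _ h _ hV v hv hY => HALF.core p g v hv h fun z hz =>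
      hV z (hz.trans (mul_le_mul_of_nonneg_left hY (by linarith [p.one_le_ratio])))⟩

namespace MAIN2

theorem mono {p : Par} {X Y : ℝ} (h : p.VarM X) (hY : Y ≤ X) : p.VarM Y :=
  fun v hv => h v (hv.trans hY)

theorem anti {p : Par} {d : Dat} {a : ℝ} {N n : ℕ} (h : p.LowB2 d a N) (hn : n ≤ N) :
    p.LowB2 d a n := fun m k S j h1 h2 => h m k S j h1 (h2.trans hn)

end MAIN2

open MAIN2 in
theorem bMAIN2 (h1 : St_HL) (h2 : St_GEO) (h3 : St_HALF2) (h4 : St_LOW2) (h5 : St_STEP2)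
    (h6 : St_START2) (h7 : St_CHAIN2) (h8 : St_FINAL2) : St_MAIN2 := by
  intro p hR
  obtain ⟨d, g⟩ := h2 p
  obtain ⟨a₁, Γ₁, a1, g1, hH⟩ := h3 p d g
  obtain ⟨a, Γ₂, a0, g2, hL⟩ := h4 p d a₁ g a1
  obtain ⟨B, β₀, c, Γ₃, B0, β0, c0, g3, hS⟩ := h5 p d a g hR a0
  obtain ⟨C, w₀, C0, hT⟩ := h6 p d g
  obtain ⟨c', Γ₄, c1, g4, hF⟩ := h8 p d a₁ a (C + 5 * B) g (h1 p hR) a1 a0
  obtain ⟨K, hK⟩ : ∃ K : ℝ, K = w₀ + c + ((C + 5 * B) / β₀) ^ 2 + 1 := ⟨_, rfl⟩
  have q0 : (0 : ℝ) ≤ w₀ := Nat.cast_nonneg _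
  have q1 : 0 ≤ ((C + 5 * B) / β₀) ^ 2 := sq_nonneg _
  have K0 : 0 ≤ K := by rw [hK]; positivity
  refine ⟨K + c' + 2, 3 * (Γ₂ + Γ₃ + Γ₁ * Γ₂ + Γ₁ * Γ₄), by positivity, by positivity,
    fun σ h w hV => ?_⟩
  have s4 : 1 ≤ σ ^ 4 := one_le_pow₀ h
  have s2 : 1 ≤ σ ^ 2 := one_le_pow₀ h
  have t1 : 0 ≤ c' * σ ^ 4 := by positivity
  have t2 : 0 ≤ K * σ ^ 4 := by positivity
  by_cases hw : (w : ℝ) ≤ K * σ ^ 4
  · refine hw.trans (le_trans ?_ (Real.add_one_le_exp _))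
    linarith
  rw [not_le, hK] at hw
  have u0 : (w₀ : ℝ) * 1 ≤ w₀ * σ ^ 4 := mul_le_mul_of_nonneg_left s4 q0
  have u1 : 0 ≤ c * σ ^ 4 := by positivity
  have u2 : 0 ≤ ((C + 5 * B) / β₀) ^ 2 * σ ^ 4 := by positivity
  have w0 : w₀ ≤ w := by exact_mod_cast (by linarith : (w₀ : ℝ) ≤ w)
  have w1 : (1 : ℝ) ≤ w := by linarith
  have w1' : 1 ≤ w := by exact_mod_cast w1
  have hN : ((3 * w ^ 4 : ℕ) : ℝ) = 3 * (w : ℝ) ^ 4 := by push_cast; ring
  have W0 : 0 ≤ (w : ℝ) ^ 4 := by positivity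
  have v1 := mul_nonneg g2 W0
  have v2 := mul_nonneg g3 W0
  have v3 := mul_nonneg (mul_nonneg g1 g2) W0
  have v4 := mul_nonneg (mul_nonneg g1 g4) W0
  have hLow := hL σ h (3 * w ^ 4) (mono hV (by rw [hN]; linarith))
    (hH σ h _ (mono hV (by rw [hN]; linarith)))
  have hStep := hS σ h (3 * w ^ 4) (mono hV (by rw [hN]; linarith)) hLow
  obtain ⟨n, n1, n2, hP⟩ := hT σ h w w0
  have ww : w ≤ w ^ 4 := Nat.le_self_pow (by norm_num) w
  have r0 : 0 < √(w : ℝ) := Real.sqrt_pos.2 (by linarith)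
  have key : ∀ {i k : ℕ}, 1 ≤ k → k ≤ w → k ≤ i →
      C / √(w : ℝ) + 5 * B * σ ^ 2 / √(i : ℝ) ≤ (C + 5 * B) * σ ^ 2 / √(k : ℝ) := by
    intro i k k1 k2 k3
    have k0 : 0 < √(k : ℝ) := Real.sqrt_pos.2 (by exact_mod_cast k1)
    rw [add_mul, add_div]
    exact add_le_add
      (div_le_div₀ (by positivity) (le_mul_of_one_le_right C0 s2) k0
        (Real.sqrt_le_sqrt (by exact_mod_cast k2)))
      (div_le_div_of_nonneg_left (by positivity) k0 (Real.sqrt_le_sqrt (by exact_mod_cast k3)))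
  obtain ⟨m, m1, m2, hm⟩ := h7 ((p.sig σ h).PP d) (fun n => 5 * B * σ ^ 2 / √(n : ℝ))
    (fun n => B * σ ^ 2 / √(n : ℝ)) (C / √(w : ℝ)) β₀ w (3 * w ^ 4) w1' (by positivity)
    (fun n => by positivity) (fun n => by positivity) (Par.PP_mono d)
    (fun n β hn hn' b0 b1 hP => hStep n β (by
      have : (w : ℝ) ≤ n := by exact_mod_cast hn
      linarith) hn' b0 b1 hP)
    (fun n n' k1 k2 => by
      have a0 : (1 : ℝ) ≤ n' := by exact_mod_cast k1
      have a1 : 3 * (n' : ℝ) ≤ 2 * n := by exact_mod_cast k2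
      have a2 : 0 < √(n' : ℝ) := Real.sqrt_pos.2 (by linarith)
      have a3 : 6 / 5 * √(n' : ℝ) ≤ √(n : ℝ) := by
        refine Real.le_sqrt_of_sq_le ?_
        rw [mul_pow, Real.sq_sqrt (by linarith)]
        linarith
      rw [← add_div, div_le_div_iff₀ (by linarith) a2]
      nlinarith [mul_le_mul_of_nonneg_left a3 (by positivity : 0 ≤ B * σ ^ 2)])
    (fun n hn => (key w1' le_rfl hn).trans (by
      have a1 : (C + 5 * B) / β₀ * σ ^ 2 ≤ √(w : ℝ) := by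
        refine Real.le_sqrt_of_sq_le ?_
        rw [mul_pow, ← pow_mul]
        linarith
      rw [div_mul_eq_mul_div, div_le_iff₀ β0] at a1
      rw [div_le_iff₀ r0]
      linarith))
    n (ww.trans n1) n2
    (Par.PP_mono d n _ _ (by positivity) (le_add_of_nonneg_right (by positivity)) hP)
  have m3 : (m : ℝ) ≤ (w : ℝ) ^ 4 := by exact_mod_cast m2.le.trans ww
  have fin := hF σ h m (hH σ h _ (mono hV (by
      have := mul_le_mul_of_nonneg_left m3 (mul_nonneg g1 g4)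
      linarith))) (anti hLow (by omega))
    (Par.PP_mono d m _ _ (by positivity) (key (by omega) m2.le le_rfl) hm)
  have m4 : (w : ℝ) ≤ 3 * m := by exact_mod_cast m1
  have e3 : (3 : ℝ) ≤ Real.exp ((K + 2) * σ ^ 4) :=
    le_trans (by linarith) (Real.add_one_le_exp _)
  rw [show (K + c' + 2) * σ ^ 4 = (K + 2) * σ ^ 4 + c' * σ ^ 4 by ring, Real.exp_add]
  exact m4.trans (mul_le_mul e3 fin (Nat.cast_nonneg _) (Real.exp_pos _).le)

theorem bRATE (hM : St_MAIN2) : St_RATE := by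
  intro p hR
  obtain ⟨c, Γ, c0, g0, H⟩ := hM p hR
  obtain ⟨k, hk⟩ : ∃ k : ℝ, k = 1 / (8 * (c + 1)) := ⟨_, rfl⟩
  have k0 : 0 < k := by rw [hk]; positivity
  have k1 : k * (8 * (c + 1)) = 1 := by rw [hk]; field_simp
  have k2 : c * k ^ 2 ≤ 1 / 8 := by
    have a1 := mul_nonneg c0 k0.le
    have a2 : c * k * k ≤ c * k * 1 := mul_le_mul_of_nonneg_left (by linarith) a1
    nlinarith
  refine ⟨k, k0, ?_⟩
  have hl : Tendsto (fun N : ℕ => Real.log N) atTop atTop :=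
    Real.tendsto_log_atTop.comp tendsto_natCast_atTop_atTop
  filter_upwards [hl.eventually_ge_atTop ((1 / k) ^ 2), hl.eventually_ge_atTop (32 * Γ),
    eventually_ge_atTop 1] with N N1 N2 N3
  by_contra hne
  push Not at hne
  have L0 : 0 ≤ Real.log N := (sq_nonneg _).trans N1
  have s1 : 1 ≤ k * √(Real.log N) := by
    have := Real.le_sqrt_of_sq_le N1
    rwa [div_le_iff₀' k0] at this
  have s2 : √(k * √(Real.log N)) ^ 2 = k * √(Real.log N) := Real.sq_sqrt (by linarith)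
  have s4 : √(k * √(Real.log N)) ^ 4 = k ^ 2 * Real.log N := by
    rw [show (4 : ℕ) = 2 * 2 from rfl, pow_mul, s2, mul_pow, Real.sq_sqrt L0]
  obtain ⟨y, hy⟩ : ∃ y, y = Real.exp (Real.log N / 8) := ⟨_, rfl⟩
  have y1 : 1 ≤ y := by rw [hy]; exact Real.one_le_exp (by linarith)
  have y4 : 16 * Γ ≤ y ^ 4 := by
    rw [hy, ← Real.exp_nat_mul]
    refine le_trans ?_ (Real.add_one_le_exp _)
    push_cast
    linarith
  have y8 : y ^ 4 * y ^ 4 = N := by
    rw [hy, ← pow_add, ← Real.exp_nat_mul]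
    have : ((4 + 4 : ℕ) : ℝ) * (Real.log N / 8) = Real.log N := by push_cast; ring
    rw [this, Real.exp_log (by exact_mod_cast N3)]
  have w1 : y < (⌊y⌋₊ + 1 : ℕ) := by push_cast; exact Nat.lt_floor_add_one y
  have w2 : ((⌊y⌋₊ + 1 : ℕ) : ℝ) ≤ 2 * y := by
    push_cast
    linarith [Nat.floor_le (by linarith : 0 ≤ y)]
  have fin := H √(k * √(Real.log N)) (Real.one_le_sqrt.2 s1) (⌊y⌋₊ + 1) fun v hv => by
    show p.Vr v ≤ √(k * √(Real.log N)) ^ 2
    rw [s2]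
    refine (hne v (hv.trans ?_)).le
    have a1 := mul_le_mul_of_nonneg_left (pow_le_pow_left₀ (Nat.cast_nonneg _) w2 4) g0
    have a2 := mul_le_mul_of_nonneg_right y4 (by positivity : 0 ≤ y ^ 4)
    rw [mul_pow] at a1
    linarith
  have a3 : Real.exp (c * √(k * √(Real.log N)) ^ 4) ≤ y := by
    rw [hy, s4, ← mul_assoc]
    exact Real.exp_le_exp.2 (by linarith [mul_le_mul_of_nonneg_right k2 L0])
  linarith

open OUT in
theorem bFIN2 (hP : St_PC) (hM : St_RATE) : St_FIN2 := by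
  intro r b hr
  obtain ⟨p₀, hp, H⟩ := hP (DD r b)
  refine ⟨min 1 (ENNReal.ofReal p₀), lt_min zero_lt_one (ENNReal.ofReal_pos.2 hp),
    fun F _ hF ha hs => ?_⟩
  obtain ⟨a, hra, hab, hc⟩ := level F r b hF _ hs (min_le_left _ _)
  have hra' : (r : ℝ) < a := hra
  have hlo : r < (3 * r + a) / 4 := by
    rw [← NNReal.coe_lt_coe]; push_cast; linarith
  let p : Par :=
    { F := F
      prob := inferInstance
      r := r
      b := b
      lo := (3 * r + a) / 4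
      hi := a
      σ := 1
      r_pos := hr
      r_le_lo := hlo.le
      lo_lt := by push_cast; linarith
      hi_le := hab
      q_pos := ENNReal.toReal_pos (ha _ hlo).ne' (measure_ne_top _ _)
      one_le := le_rfl }
  obtain ⟨c, c0, hc'⟩ := hM p
    (H p (ENNReal.toReal_le_of_le_ofReal hp.le (hc.le.trans (min_le_right _ _))))
  refine ⟨c, c0, hc'.mono fun N ⟨v, hv, hV⟩ => ⟨v, fun i => ?_, ?_⟩⟩
  · have hi : |(v i : ℝ)| ≤ N := by
      unfold n1 at hv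
      have := abs_nonneg (v 0 : ℝ)
      have := abs_nonneg (v 1 : ℝ)
      have := abs_nonneg (v 2 : ℝ)
      fin_cases i <;> simp only [Fin.zero_eta, Fin.mk_one, Fin.reduceFinMk] <;> linarith
    exact_mod_cast hi
  · exact (ENNReal.ofReal_le_of_le_toReal hV).trans (ident p hF v).evariance_eq.ge

end Pool.Agent.Lib.V3
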