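import Pool.Agent.Lib.V3.B_SUM
import Pool.Agent.Lib.V3.B_WIN
import Pool.Agent.Lib.V3.B_PC
import Pool.Agent.Lib.V3.B_HL
import Pool.Agent.Lib.V3.B_GEO
import Pool.Agent.Lib.V3.B_DEC
import Pool.Agent.Lib.V3.B_MART
import Pool.Agent.Lib.V3.Fast47
import Pool.Agent.Lib.V3.Sep47
import Pool.Agent.Lib.V3Q.B_KES
import Pool.Agent.Lib.V3Q.B_HALVE
import Pool.Agent.Lib.V3Q.B_START2
import Pool.Agent.Lib.V3Q.B_LOW2
import Pool.Agent.Lib.V3Q.B_CORE2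
import Pool.Agent.Lib.V3Q.B_STEP2
import Pool.Agent.Lib.V3Q.B_FINAL2
import Pool.Agent.Lib.V3Q.B_MAIN2

/-! Assembly of the rate. -/

namespace Pool.Agent.Lib.V3

theorem bSEP2 : St_SEP2 := fun z K h0 hK n S hn hS => SEP47.sep z K h0 hK n S hn hS

theorem st_MAIN2 : St_MAIN2 :=
  bMAIN2 bHL bGEO bHALF2 (bLOW2 bSUM) (bSTEP2 (bCORE2 bWIN bDEC bMART))
    (bSTART2 (bHALVE bKES) bCHAIN2) bCHAIN2 (bFINAL2 bFAST47 bSEP2)

theorem st_FIN2 : St_FIN2 := bFIN2 bPC (bRATE st_MAIN2)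

end Pool.Agent.Lib.V3
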