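import Pool.Agent.Lib.V3Q.Blue
import Pool.Agent.Lib.V3.B_CORE
import Pool.Agent.Lib.V3.B_HALF

/-! The core step with the variance bound used only up to a given distance. -/

namespace Pool.Agent.Lib.V3

open MeasureTheory ProbabilityTheory Filter Topology Function Finset
open scoped NNReal ENNReal

namespace CORE2

open CORE hiding tail_pr sum_ev1 sum_ev2 exc_pr

lemma tail_pr {p : Par} (d : Dat) {s : ℝ} (hs : 0 < s) (j : ℕ) (y : V)
    (hV : p.Vr y ≤ p.σ ^ 2) :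
    p.pr (Tail p d s j y) ≤ p.σ ^ 2 / s ^ 2 := by
  refine le_trans (p.pr_mono fun τ hτ => ?_) (HALF.low p 0 y (by rwa [sub_zero]) hs)
  have h1 : p.A d j τ y < p.g d y - s := hτ
  have h2 := p.T_le_TA (Lo j) τ 0 y
  show p.T τ 0 y ≤ p.h (y - 0) - s
  rw [sub_zero]
  unfold Par.A Par.g at h1
  linarith

/-- first use of the martingale bound -/
lemma sum_ev1 (hM : St_MART) {p : Par} (d : Dat) (n : ℕ) (x : V) (hV : p.Vr x ≤ p.σ ^ 2) {t s : ℝ}
    (ht : 1 ≤ t) (hs : 300 * p.σ ^ 2 * √t ≤ p.c1 * s) (W : ℕ → Finset V)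
    (hW0 : ∀ j, ∀ y ∈ W j, y 0 = j) (hWc : ∀ j, ((W j).card : ℝ) ≤ 9 * (n * t))
    (hWV : ∀ j ∈ JJ n, ∀ y ∈ W j, p.Vr y ≤ p.σ ^ 2) :
    ∑ j ∈ JJ n, p.pr (p.Ev x j (W j) (Tail p d s j)) ≤ n / 100 := by
  have hσ := p.σ_pos
  have hc := p.c1_pos
  have ht0 : 0 < t := by linarith
  have hst : 0 < √t := Real.sqrt_pos.2 ht0
  have hl : 0 < 300 * p.σ ^ 2 * √t := by positivity
  have hs0 : 0 < s := (mul_pos_iff_of_pos_left hc).1 (hl.trans_le hs)
  have hn : (0 : ℝ) ≤ n := Nat.cast_nonneg n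
  have h1 := hM p x (JJ n) W (Tail p d s) fun j _ y hy =>
    ⟨hW0 j y hy, tail_meas p d s j y, tail_dep p d s j y⟩
  have h2 : ∑ j ∈ JJ n, ∑ y ∈ W j, p.pr (Tail p d s j y) ≤
      n * (9 * (n * t) * (p.σ ^ 2 / s ^ 2)) := by
    have : ∀ j ∈ JJ n, ∑ y ∈ W j, p.pr (Tail p d s j y) ≤ 9 * (n * t) * (p.σ ^ 2 / s ^ 2) := by
      intro j hj
      have := Finset.sum_le_card_nsmul (W j) (fun y => p.pr (Tail p d s j y)) _
        fun y hy => tail_pr d hs0 j y (hWV j hj y hy)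
      rw [nsmul_eq_mul] at this
      exact this.trans (mul_le_mul_of_nonneg_right (hWc j) (by positivity))
    have h3 := Finset.sum_le_card_nsmul (JJ n) _ _ this
    rw [nsmul_eq_mul] at h3
    exact h3.trans (mul_le_mul_of_nonneg_right (card_JJ_le n) (by positivity))
  have h3 : p.Vr x * ∑ j ∈ JJ n, ∑ y ∈ W j, p.pr (Tail p d s j y) ≤
      p.σ ^ 2 * (n * (9 * (n * t) * (p.σ ^ 2 / s ^ 2))) :=
    mul_le_mul hV h2 (sum_nonneg fun j _ => sum_nonneg fun y _ => p.pr_nonneg _)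
      (by positivity)
  have h4 : (300 * p.σ ^ 2 * √t) ^ 2 ≤ (p.c1 * s) ^ 2 := pow_le_pow_left₀ hl.le hs 2
  have h5 : (300 * p.σ ^ 2 * √t) ^ 2 = 90000 * p.σ ^ 4 * t := by
    rw [mul_pow, Real.sq_sqrt ht0.le]; ring
  have h6 : p.σ ^ 2 * (n * (9 * (n * t) * (p.σ ^ 2 / s ^ 2))) ≤ (p.c1 * (n / 100)) ^ 2 := by
    have e : p.σ ^ 2 * (n * (9 * (n * t) * (p.σ ^ 2 / s ^ 2))) =
        (n : ℝ) ^ 2 / 10000 * (90000 * p.σ ^ 4 * t) / s ^ 2 := by ring
    rw [e, div_le_iff₀ (by positivity)]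
    have e2 : (p.c1 * (n / 100)) ^ 2 * s ^ 2 = (n : ℝ) ^ 2 / 10000 * (p.c1 * s) ^ 2 := by ring
    rw [e2, ← h5]
    exact mul_le_mul_of_nonneg_left h4 (by positivity)
  have h7 := (h1.trans h3).trans h6
  have h8 := (abs_le_of_sq_le_sq' h7 (by positivity : 0 ≤ p.c1 * (n / 100))).2
  exact le_of_mul_le_mul_left h8 hc

/-- second use of the martingale bound -/
lemma sum_ev2 (hM : St_MART) {p : Par} (n : ℕ) (x : V) (hV : p.Vr x ≤ p.σ ^ 2) (S : ℕ → Finset V)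
    (hS0 : ∀ j, ∀ y ∈ S j, y 0 = j)
    (h : (n : ℝ) / 20 ≤ ∑ j ∈ JJ n, p.pr (p.Ev x j (S j) fun _ => Set.univ)) :
    p.cS * n ^ 2 ≤ ∑ j ∈ JJ n, ((S j).card : ℝ) := by
  have hσ := p.σ_pos
  have hc := p.c1_pos
  have h1 := hM p x (JJ n) S (fun _ _ => Set.univ) fun j _ y hy =>
    ⟨hS0 j y hy, MeasurableSet.univ, fun _ _ _ _ => Set.mem_univ _⟩
  simp only [p.pr_univ, sum_const, nsmul_eq_mul, mul_one] at h1
  have h2 : (p.c1 * (n / 20)) ^ 2 ≤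
      (p.c1 * ∑ j ∈ JJ n, p.pr (p.Ev x j (S j) fun _ => Set.univ)) ^ 2 :=
    pow_le_pow_left₀ (by positivity) (mul_le_mul_of_nonneg_left h hc.le) 2
  have h3 : p.Vr x * ∑ j ∈ JJ n, ((S j).card : ℝ) ≤ p.σ ^ 2 * ∑ j ∈ JJ n, ((S j).card : ℝ) :=
    mul_le_mul_of_nonneg_right hV (sum_nonneg fun j _ => Nat.cast_nonneg _)
  have h4 := (h2.trans h1).trans h3
  unfold Par.cS
  rw [div_mul_eq_mul_div, div_le_iff₀ (by positivity)]
  nlinarith

lemma exc_pr {p : Par} (hR : p.Rare) {n : ℕ} (hn : 1 ≤ n) (x : V) (hV : p.Vr x ≤ p.σ ^ 2) :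
    p.pr (Exc p n x) ≤ 3 / 100 := by
  have hσ := p.σ_pos
  have h1 := HALF.high p 0 x (s := p.σ) (t := 10 * p.σ) (by rwa [sub_zero]) (by positivity)
  have e : p.σ ^ 2 / (10 * p.σ) ^ 2 = 1 / 100 := by field_simp; norm_num
  rw [e] at h1
  have h2 := hR n hn
  have h3 := p.pr_rf x (Light p.hi (DD p.r p.b * n) (n / 100))
  have h4 := p.pr_union_le ({τ | p.h (x - 0) + 10 * p.σ ≤ p.T τ 0 x} ∪
    Light p.hi (DD p.r p.b * n) (n / 100)) {τ | rf x τ ∈ Light p.hi (DD p.r p.b * n) (n / 100)}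
  have h5 := p.pr_union_le {τ | p.h (x - 0) + 10 * p.σ ≤ p.T τ 0 x}
    (Light p.hi (DD p.r p.b * n) (n / 100))
  unfold Exc
  linarith

lemma range_x {p : Par} {d : Dat} (g : p.Good d) {n : ℕ} {x : V} (hx : x 0 = n)
    (hg : p.g d x ≤ n) : n1 x ≤ (1 + 2 * p.R) * n := by
  have hr := p.r_pos
  have hb := p.b_pos
  have h0 : ((x 0 : ℤ) : ℝ) = n := by rw [hx]; simp
  have h1 := g.g_ge x (by rw [hx]; exact Int.natCast_nonneg n)
  rw [h0] at h1
  have hn : (0 : ℝ) ≤ n := Nat.cast_nonneg n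
  have h2 : |(x 1 : ℝ)| + |(x 2 : ℝ)| ≤ 2 * p.R * n := by
    have e : 2 * p.R * n = 8 * (5 * p.b + 2) * n / p.r := by unfold Par.R; ring
    rw [e, le_div_iff₀ hr]
    linarith [mul_nonneg hb.le hn]
  unfold n1
  rw [h0, Nat.abs_cast]
  linarith

lemma range_y {p : Par} {d : Dat} (g : p.Good d) {n j : ℕ} (hj : j < n) {y : V} (hy : y 0 = j)
    {u : ℝ} (hu : d.eta y ≤ u) : n1 y ≤ (1 + 2 * p.R) * n + 2 * √u := by
  have h0 : ((y 0 : ℤ) : ℝ) = j := by rw [hy]; simp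
  have hj' : (j : ℝ) ≤ n := by exact_mod_cast hj.le
  have j0 : (0 : ℝ) ≤ j := Nat.cast_nonneg j
  have key : ∀ a θ : ℝ, |θ| ≤ p.R → (a - j * θ) ^ 2 ≤ u → |a| ≤ p.R * n + √u := by
    intro a θ hθ h
    have h1 := Real.abs_le_sqrt h
    have h2 := abs_add_le (a - j * θ) (j * θ)
    rw [sub_add_cancel, abs_mul, abs_of_nonneg j0] at h2
    have h3 := mul_le_mul hj' hθ (abs_nonneg θ) (j0.trans hj')
    linarith
  unfold Dat.eta at hu
  rw [h0] at hu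
  have a1 := key (y 1) d.θ1 g.θ1_le (by linarith [sq_nonneg ((y 2 : ℝ) - j * d.θ2)])
  have a2 := key (y 2) d.θ2 g.θ2_le (by linarith [sq_nonneg ((y 1 : ℝ) - j * d.θ1)])
  unfold n1
  rw [h0, Nat.abs_cast]
  linarith

end CORE2

open CORE in
theorem bCORE2 (hW : St_WIN) (hD : St_DEC) (hM : St_MART) : St_CORE2 := by
  classical
  intro p d X g hV hR n x lam t s hn hx hl hk hL ht hε hs hX
  have hn0 : (24 : ℝ) ≤ n := by exact_mod_cast hn
  have hu : (1 : ℝ) ≤ n * t := by nlinarith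
  choose W hW1 hW2 using fun j : ℕ => hW d j (n * t) hu
  let S : ℕ → Finset V := fun j => (W j).filter fun y =>
    p.g d y * (n - 1) ≤ j * (p.g d x + 10 * p.σ + p.b + 2 * s)
  have hW0 : ∀ j, ∀ y ∈ W j, y 0 = j := fun j y hy => ((hW1 j y).1 hy).1
  have hS0 : ∀ j, ∀ y ∈ S j, y 0 = j := fun j y hy => hW0 j y (mem_filter.1 hy).1
  have hVx : p.Vr x ≤ p.σ ^ 2 := hV x (by
    have := CORE2.range_x g hx (by linarith [p.σ_pos, p.b_pos])
    linarith [Real.sqrt_nonneg (n * t)])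
  have e1 := CORE2.sum_ev1 hM d n x hVx ht hs W hW0 hW2 fun j hj y hy =>
    hV y ((CORE2.range_y g (mem_JJ.1 hj).1 (hW0 j y hy) ((hW1 j y).1 hy).2).trans hX)
  have hp := p.avg (JJ n) (fun _ => 1) (fun j => Exc p n x ∪ Bad p d n x lam s W S j ∪
      {τ | rf x τ ∈ Bad p d n x lam s W S (n - 1 - j)}) _ (fun _ _ => zero_le_one)
    (point hD g (by omega) hx hl hk hε (fun j y h0 h1 => (hW1 j y).2 ⟨h0, h1⟩)
      fun j y hy h => mem_filter.2 ⟨hy, h⟩)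
  have hb : ∀ j ∈ JJ n, 1 * p.pr (Exc p n x ∪ Bad p d n x lam s W S j ∪
      {τ | rf x τ ∈ Bad p d n x lam s W S (n - 1 - j)}) ≤
      3 / 100 + p.pr (Bad p d n x lam s W S j) + p.pr (Bad p d n x lam s W S (n - 1 - j)) := by
    intro j _
    have h1 := p.pr_union_le (Exc p n x ∪ Bad p d n x lam s W S j)
      {τ | rf x τ ∈ Bad p d n x lam s W S (n - 1 - j)}
    have h2 := p.pr_union_le (Exc p n x) (Bad p d n x lam s W S j)
    have h3 := p.pr_rf x (Bad p d n x lam s W S (n - 1 - j))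
    have h4 := CORE2.exc_pr hR (by omega : 1 ≤ n) x hVx
    linarith
  have hq := hp.trans (sum_le_sum hb)
  rw [sum_add_distrib, sum_add_distrib, sum_const, nsmul_eq_mul,
    sum_flip n fun j => p.pr (Bad p d n x lam s W S j)] at hq
  have hr := sum_le_sum fun j (hj : j ∈ JJ n) =>
    bad_pr p d n x lam s W S j (hL j (mem_JJ.1 hj).1)
  rw [sum_add_distrib, sum_add_distrib, sum_const, nsmul_eq_mul] at hr
  have hJ := card_JJ_ge hn
  have e2 := CORE2.sum_ev2 hM n x hVx S hS0 (by linarith)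
  refine ⟨(JJ n).biUnion S, fun v hv => ?_, ?_⟩
  · obtain ⟨j, hj, hv⟩ := mem_biUnion.1 hv
    have h0 := hS0 j v hv
    have h1 := (mem_filter.1 hv).2
    rw [mem_JJ] at hj
    refine ⟨by omega, by omega, ?_⟩
    rw [h0, Int.cast_natCast]
    exact h1
  · rw [card_biUnion, Nat.cast_sum]
    · exact e2
    · intro i _ j _ hij
      refine disjoint_left.2 fun v h1 h2 => hij ?_
      have := (hS0 i v h1).symm.trans (hS0 j v h2)
      exact_mod_cast this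

end Pool.Agent.Lib.V3
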